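import Pool.Agent.H518R4.UG.SELF
import Pool.Agent.H518R4.UG.TWOU
import Pool.Agent.H518R4.UG.PYTH
import Pool.Agent.H518R4.UG.WEI
import Pool.Agent.H518R4.UG.COAR
import Pool.Agent.H518R4.UG.CONN
import Pool.Agent.H518R4.UG.COVER
import Pool.Agent.H518R4.UG.COMPR
import Pool.Agent.H518R4.UG.PHASE
import Pool.Agent.H518R4.UG.LIMP
import Pool.Agent.H518R4.UG.HALVE
import Pool.Agent.H518R4.UG.PART
import Pool.Agent.H518R4.UG.GROUP
import Pool.Agent.H518R4.UG.MERGE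
import Pool.Agent.H518R4.UG.ALIGN
import Pool.Agent.H518R4.UG.MUL
import Pool.Agent.H518R4.UG.BURG
import Pool.Agent.H518R4.UG.LIFT
import Pool.Agent.H518R4.UG.PARS
import Pool.Agent.H518R4.UG.WEYL
import Pool.Agent.H518R4.UG.QE
import Pool.Agent.H518R4.UG.SIGNS
import Pool.Agent.H518R4.UG.TRUNC
import Pool.Agent.H518R4.UG.ZPR
import Pool.Agent.H518R4.UG.COPIES
import Pool.Agent.H518R4.UG.MASS
import Pool.Agent.H518R4.UG.BLOCK
import Pool.Agent.H518R4.UG.PACK
import Pool.Agent.H518R4.UG.PSD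
import Pool.Agent.H518R4.UG.CEXP
import Pool.Agent.H518R4.UG.GRAPH
import Pool.Agent.H518R4.UG.WALK
import Pool.Agent.H518R4.UG.SPACE
import Pool.Agent.H518R4.UG.BOOST
import Pool.Agent.H518R4.UG.FROMGAP
import Pool.Agent.H518R4.UG.UNIV
import Pool.Agent.H518R4.UG.NGAM
import Pool.Agent.H518R4.UG.FCT

/-!
Sequential commutation (MP_b14dba_an): the universal spectral gap of helper518's team, collected.
-/

set_option autoImplicit false

namespace Pool.Agent.H878R6.SC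

open Pool.Agent.H518R4.UG

theorem mul : S_MUL := by
  have hPHASE := p_PHASE p_SELF p_TWOU (p_CONN p_WEI p_COAR) p_COVER p_COMPR
  have hPART := p_PART (p_HALVE hPHASE p_LIMP) p_PYTH
  exact p_MUL hPART p_GROUP p_MERGE p_ALIGN

theorem univ : S_UNIV := by
  have hLIFT := p_LIFT
  have hQE := p_QE p_BURG hLIFT p_PARS p_WEYL
  have hBLOCK := p_BLOCK hLIFT hQE (p_SIGNS hLIFT) p_TRUNC (p_ZPR hLIFT) p_COPIES p_MASS p_TWOU
  have hPACK := p_PACK mul hBLOCK
  have hGRAPH := p_GRAPH (p_CEXP p_BURG) p_PSD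
  have hBOOST := p_BOOST p_PSD hGRAPH p_WALK p_SPACE
  exact p_UNIV hPACK hBOOST (p_FROMGAP p_TWOU)

theorem ngam : S_NGAM := p_NGAM mul

end Pool.Agent.H878R6.SC
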