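import Pool.Agent.H878R6.SC.Stubs
import Pool.Agent.H878R6.SC.Univ

/-!
Sequential commutation (MP_b14dba_an): assembly.
-/

set_option autoImplicit false

open scoped ComplexOrder Topology InnerProductSpace BoundedContinuousFunction
open Filter

noncomputable section

namespace Pool.Agent.H878R6.SC

open Pool.Agent.H467F Pool.Agent.H518R4.UG

/-- Property Gamma of Murray and von Neumann. -/
def Gamma {A : Type} [CStarAlgebra A] (τ : A →ₗ[ℂ] ℂ) : Prop :=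
  ∀ (n : ℕ) (x : Fin n → A) (ε : ℝ), 0 < ε → ∃ w : A, w ∈ unitary A ∧ τ w = 0 ∧
    ∀ i, n2 τ (w * x i - x i * w) < ε

theorem fin_of (hHAAR : S_HAAR) (hCOMM : S_COMM) (hBLK : S_BLK) (hGAPD : S_GAPD)
    (hUGAP : S_UGAP) (hUV : S_UV) (hG2 : S_G2) :
    ∃ C : ℝ, 0 < C ∧ ∀ (H : Type) [NormedAddCommGroup H] [InnerProductSpace ℂ H]
      [CompleteSpace H] (N : VonNeumannAlgebra H) (t : Elt N →ₗ[ℂ] ℂ),
      IsIIOneFactor N (t : Elt N → ℂ) → ¬ Gamma t →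
      ∃ u c : Elt N, c ∈ unitary (Elt N) ∧ Haar t u ∧ Haar t (c * u * star c) ∧
        Gap2 t C u (c * u * star c) := by
  obtain ⟨k, c, hc, hU⟩ := univ
  have hn : 2 * (2 * k) + 3 ≤ 2 ^ (4 * k + 3) := by
    have := Nat.lt_two_pow_self (n := 4 * k + 3)
    omega
  haveI : NeZero (2 ^ (4 * k + 3)) := ⟨by positivity⟩
  obtain ⟨C, hC, hG⟩ := hG2 (2 * k) (2 ^ (4 * k + 3)) (c / 2) (half_pos hc) hn
  refine ⟨C, hC, ?_⟩
  intro H _ _ _ N t hN hGam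
  have hF : Fct t := p_FCT H N t hN
  have hgap : ∃ (k' : ℕ) (c' : ℝ), 0 < c' ∧ ¬ NG t k' c' := by
    by_contra h
    push Not at h
    apply hGam
    intro n x ε hε
    obtain ⟨w, hw, hw2⟩ := ngam _ t hF (fun k' c' hc' => h k' c' hc') n x ε hε
    exact ⟨w, w.2, hw, hw2⟩
  obtain ⟨v0, g, hv0⟩ := hF.mu (4 * k + 3)
  let e : ZMod (2 ^ (4 * k + 3)) ≃ Fin (2 ^ (4 * k + 3)) :=
    (ZMod.finEquiv (2 ^ (4 * k + 3))).symm.toEquiv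
  have hv : IsMU (fun i => v0 (e i)) g := by
    refine ⟨fun i => hv0.ini _, fun i j hij => hv0.ort _ _ (fun h => hij (e.injective h)), ?_⟩
    rw [← hv0.sum]
    exact Equiv.sum_comp e (fun i => v0 i * star (v0 i))
  obtain ⟨N₁, t₁, ι, hN1, htr, hinj, hrange⟩ := hCOMM H N t hN (2 ^ (4 * k + 3)) _ g hv
  have hF1 : Fct t₁ := p_FCT H N₁ t₁ hN1
  have hcom : IsCom t t₁ (fun i => v0 (e i)) ι := ⟨hF.tw, hF1.tw, htr, hinj, hrange⟩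
  obtain ⟨bl, hbl⟩ := hBLK _ _ t t₁ (2 ^ (4 * k + 3)) _ g ι hv hcom
  obtain ⟨k', c', hc', hgap'⟩ := hgap
  have hg1 := hGAPD _ _ t t₁ (2 ^ (4 * k + 3)) _ ι bl hcom hbl k' c' hc' hgap'
  have hng : ¬ NG t₁ k c := hU _ t₁ hF1 hg1
  obtain ⟨x, hx⟩ := hUGAP _ t₁ hF1.tw k c hng
  obtain ⟨s, hs⟩ := hHAAR _ t₁ hF1
  obtain ⟨w, hw⟩ := hG _ _ t t₁ _ g ι bl hv hcom hbl ⟨s, hs.1⟩ x hx
  obtain ⟨h1, h2, h3⟩ := hUV _ _ t t₁ (2 ^ (4 * k + 3)) _ g ι bl hv hcom hbl ⟨s, hs.1⟩ w hs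
  exact ⟨_, _, h2, h1, h3, hw⟩

end Pool.Agent.H878R6.SC
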