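import Pool.Agent.H878R6.SC.Fin

/-!
Sequential commutation (MP_b14dba_an): chains and diameter; assembly, second part.
-/

set_option autoImplicit false

open scoped ComplexOrder Topology InnerProductSpace BoundedContinuousFunction
open Filter

noncomputable section

namespace Pool.Agent.H878R6.SC

open Pool.Agent.H467F Pool.Agent.H518R4.UG

/-- `a` and `b` are joined by a chain with `n` intermediate Haar unitaries
`w 1, ..., w n` of `(Q, σ)`: `[a, w 1] = [w 1, w 2] = ... = [w n, b] = 0`. -/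
def Joined {Q : Type} [Ring Q] [StarRing Q] (σ : Q → ℂ) (a b : Q) (n : ℕ) : Prop :=
  ∃ w : ℕ → Q, w 0 = a ∧ w (n + 1) = b ∧ (∀ i, 1 ≤ i → i ≤ n → Haar σ (w i)) ∧
    ∀ i, i ≤ n → w i * w (i + 1) = w (i + 1) * w i

/-- The length of a shortest chain of Haar unitaries of `(Q, σ)` joining `a` and `b` (`⊤` if there is
no chain). -/
def pN {Q : Type} [Ring Q] [StarRing Q] (σ : Q → ℂ) (a b : Q) : ℕ∞ :=
  sInf {m : ℕ∞ | ∃ n : ℕ, 1 ≤ n ∧ Joined σ a b n ∧ m = n}

/-- The sequential commutation diameter of `(M, τ)`, where `(Q, σ)` with `π` is the ultrapower: the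
supremum over all Haar unitaries `u, v` of `M` of the length of a shortest chain joining `u` and
`v` (constant sequences) in the ultrapower. -/
def diameter {M : Type} [CStarAlgebra M] (τ : M → ℂ) {Q : Type} [Ring Q] [StarRing Q]
    [Algebra ℂ Q] (π : (ℕ →ᵇ M) →⋆ₐ[ℂ] Q) (σ : Q → ℂ) : ℕ∞ :=
  ⨆ (u : M) (v : M) (_ : Haar τ u) (_ : Haar τ v),
    pN σ (π (BoundedContinuousFunction.const ℕ u)) (π (BoundedContinuousFunction.const ℕ v))

theorem not_haar_scalar {M : Type} [CStarAlgebra M] {τ : M →ₗ[ℂ] ℂ} (h1 : τ 1 = 1)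
    {U : Ultrafilter ℕ} {Q : Type} [Ring Q] [StarRing Q] [Algebra ℂ Q] [StarModule ℂ Q]
    {π : (ℕ →ᵇ M) →⋆ₐ[ℂ] Q} {σ : Q → ℂ} (hπ : IsTracialUltrapower (τ : M → ℂ) U π σ) (q : Q)
    (hq : Haar σ q) (l : ℂ) : q ≠ l • (1 : Q) := by
  intro h
  have hσ : ∀ c : ℂ, σ (c • (1 : Q)) = c := by
    intro c
    have h2 := hπ.trace (BoundedContinuousFunction.const ℕ (c • (1 : M)))
    have h3 : π (BoundedContinuousFunction.const ℕ (c • (1 : M))) = c • (1 : Q) := by
      have : (BoundedContinuousFunction.const ℕ (c • (1 : M)) : ℕ →ᵇ M) = c • 1 := by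
        ext n; rfl
      rw [this, map_smul, map_one]
    rw [h3] at h2
    have h4 : Tendsto (fun _ : ℕ => τ (c • (1 : M))) U (𝓝 (τ (c • (1 : M)))) := tendsto_const_nhds
    have h5 := tendsto_nhds_unique h2 h4
    rw [h5, map_smul, h1, smul_eq_mul, mul_one]
  have h4 := (hq.2 1 le_rfl).1
  rw [pow_one, h, hσ] at h4
  have h5 : star q * q = 1 := (Unitary.mem_iff.1 hq.1).1
  rw [h, h4, zero_smul, mul_zero] at h5
  have h6 := hσ 0
  have h7 := hσ 1
  rw [zero_smul, h5] at h6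
  rw [one_smul, h6] at h7
  exact zero_ne_one h7

/-- Two Haar unitaries with spectral gap are not joined by a chain with one intermediate member. -/
theorem two_le (hULT : S_ULT) {H : Type} [NormedAddCommGroup H] [InnerProductSpace ℂ H]
    [CompleteSpace H] (N : VonNeumannAlgebra H) (t : Elt N →ₗ[ℂ] ℂ)
    (hN : IsIIOneFactor N (t : Elt N → ℂ)) (C : ℝ) (u v : Elt N) (hu : Haar t u) (hv : Haar t v)
    (hg : Gap2 t C u v) (U : Ultrafilter ℕ) (Q : Type) [Ring Q] [StarRing Q] [Algebra ℂ Q]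
    [StarModule ℂ Q] (π : (ℕ →ᵇ Elt N) →⋆ₐ[ℂ] Q) (σ : Q → ℂ)
    (hπ : IsTracialUltrapower (t : Elt N → ℂ) U π σ) :
    2 ≤ pN σ (π (BoundedContinuousFunction.const ℕ u))
      (π (BoundedContinuousFunction.const ℕ v)) ∧
    2 ≤ diameter (t : Elt N → ℂ) π σ := by
  have h1 : ¬ Joined σ (π (BoundedContinuousFunction.const ℕ u))
      (π (BoundedContinuousFunction.const ℕ v)) 1 := by
    rintro ⟨w, hw0, hw2, hH, hc⟩
    have e0 := hc 0 (by norm_num)
    have e1 := hc 1 le_rfl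
    rw [zero_add, hw0] at e0
    rw [hw2] at e1
    obtain ⟨l, hl⟩ := hULT H N t hN C u v hg U Q π σ hπ (w 1) e0.symm e1
    exact not_haar_scalar hN.trace.one hπ (w 1) (hH 1 le_rfl le_rfl) l hl
  have hp : 2 ≤ pN σ (π (BoundedContinuousFunction.const ℕ u))
      (π (BoundedContinuousFunction.const ℕ v)) := by
    refine le_sInf ?_
    rintro m ⟨n, hn1, hn, rfl⟩
    have hn2 : n ≠ 1 := by
      rintro rfl
      exact h1 hn
    have : 2 ≤ n := by omega
    exact_mod_cast this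
  refine ⟨hp, hp.trans ?_⟩
  unfold diameter
  exact le_iSup_of_le u (le_iSup_of_le v (le_iSup_of_le hu (le_iSup_of_le hv le_rfl)))

end Pool.Agent.H878R6.SC
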