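import Pool.Agent.H878R6.SC.Stubs
import Pool.Agent.H518R4.UG.LIFT

/-!
Task BLK: block matrices over the commutant of matrix units.
-/

set_option autoImplicit false

open scoped ComplexOrder Topology InnerProductSpace BoundedContinuousFunction
open Filter

noncomputable section

namespace Pool.Agent.H878R6.SC

open Pool.Agent.H467F Pool.Agent.H518R4.UG

namespace BLK

open LIFTaux

variable {A : Type} [CStarAlgebra A] {I : Type} [Fintype I] {v : I → A} {g : A}

/-- the block, as an element of the big algebra -/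
def Y (v : I → A) (y : A) (i j : I) : A := lift v (star (v i) * y * v j)

theorem lift_e [Nonempty I] (h : IsMU v g) (z : A) (i j : I) :
    lift v z * (v i * star (v j)) = v i * z * star (v j) := by
  classical
  unfold lift
  rw [Finset.sum_mul, Finset.sum_eq_single i]
  · calc v i * z * star (v i) * (v i * star (v j)) =
          v i * z * ((star (v i) * v i) * star (v j)) := by simp only [mul_assoc]
      _ = _ := by rw [h.ini, gs h]
  · intro k _ hk
    calc v k * z * star (v k) * (v i * star (v j)) =
          v k * z * ((star (v k) * v i) * star (v j)) := by simp only [mul_assoc]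
      _ = 0 := by rw [h.ort k i hk]; simp
  · intro hi
    exact absurd (Finset.mem_univ i) hi

theorem lift_sum {J : Type} (s : Finset J) (f : J → A) :
    lift v (∑ a ∈ s, f a) = ∑ a ∈ s, lift v (f a) := by
  unfold lift
  rw [Finset.sum_comm]
  refine Finset.sum_congr rfl fun i _ => ?_
  rw [Finset.mul_sum, Finset.sum_mul]

theorem lift_sub (x y : A) : lift v (x - y) = lift v x - lift v y := by
  unfold lift
  rw [← Finset.sum_sub_distrib]
  refine Finset.sum_congr rfl fun i _ => ?_
  rw [mul_sub, sub_mul]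

theorem lift_zero : lift v (0 : A) = 0 := by
  unfold lift
  simp

theorem Y_rep [Nonempty I] (h : IsMU v g) (y : A) :
    ∑ i, ∑ j, Y v y i j * (v i * star (v j)) = y := by
  have h1 : ∀ i j, Y v y i j * (v i * star (v j)) =
      (v i * star (v i)) * y * (v j * star (v j)) := by
    intro i j
    unfold Y
    rw [lift_e h]
    simp only [mul_assoc]
  simp only [h1]
  have h2 : ∀ i, ∑ j, (v i * star (v i)) * y * (v j * star (v j)) =
      (v i * star (v i)) * y := by
    intro i
    rw [← Finset.mul_sum, h.sum, mul_one]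
  simp only [h2]
  rw [← Finset.sum_mul, h.sum, one_mul]

theorem Y_mul (h : IsMU v g) (x y : A) (i j : I) :
    Y v (x * y) i j = ∑ r, Y v x i r * Y v y r j := by
  unfold Y
  have h1 : ∀ r, lift v (star (v i) * x * v r) * lift v (star (v r) * y * v j) =
      lift v (star (v i) * x * (v r * star (v r)) * y * v j) := by
    intro r
    rw [lift_mul h]
    congr 1
    calc star (v i) * x * v r * g * (star (v r) * y * v j) =
          star (v i) * x * (v r * g) * (star (v r) * y * v j) := by simp only [mul_assoc]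
      _ = _ := by rw [vg h]; simp only [mul_assoc]
  simp only [h1]
  rw [← lift_sum]
  congr 1
  simp only [mul_assoc]
  rw [← Finset.mul_sum, ← Finset.mul_sum]
  congr 2
  have h2 : ∀ r, v r * (star (v r) * (y * v j)) = (v r * star (v r)) * (y * v j) := by
    intro r
    rw [mul_assoc]
  simp only [h2]
  rw [← Finset.sum_mul, h.sum, one_mul]

theorem Y_star (y : A) (i j : I) : star (Y v y j i) = Y v (star y) i j := by
  unfold Y
  rw [star_lift, star_mul, star_mul, star_star, mul_assoc]

theorem Y_com [DecidableEq I] [Nonempty I] (h : IsMU v g) {c : A}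
    (hc : ∀ i j, v i * star (v j) * c = c * (v i * star (v j))) (k l : I) :
    Y v c k l = if k = l then c else 0 := by
  unfold Y
  by_cases hkl : k = l
  · subst hkl
    rw [if_pos rfl]
    unfold lift
    have h1 : ∀ r, v r * (star (v k) * c * v k) * star (v r) = c * (v r * star (v r)) := by
      intro r
      calc v r * (star (v k) * c * v k) * star (v r) =
            (v r * star (v k) * c) * (v k * star (v r)) := by simp only [mul_assoc]
        _ = c * (v r * (star (v k) * v k) * star (v r)) := by rw [hc]; simp only [mul_assoc]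
        _ = _ := by rw [h.ini, vg h]
    simp only [h1]
    rw [← Finset.mul_sum, h.sum, mul_one]
  · rw [if_neg hkl]
    have h1 : star (v k) * c * v l = 0 := by
      rw [mul_assoc, y_v hc h l l, ← mul_assoc, h.ort k l hkl, zero_mul]
    rw [h1, lift_zero]

theorem Y_e [DecidableEq I] [Nonempty I] (h : IsMU v g) (i j k l : I) :
    Y v (v i * star (v j)) k l = if k = i ∧ j = l then 1 else 0 := by
  unfold Y
  by_cases h1 : k = i
  · by_cases h2 : j = l
    · rw [if_pos ⟨h1, h2⟩, h1, h2]
      have h3 : star (v i) * (v i * star (v l)) * v l = g := by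
        calc star (v i) * (v i * star (v l)) * v l = (star (v i) * v i) * (star (v l) * v l) := by
              simp only [mul_assoc]
          _ = g := by rw [h.ini, h.ini, gg h]
      rw [h3, ← h.sum]
      unfold lift
      refine Finset.sum_congr rfl fun r _ => ?_
      rw [vg h]
    · rw [if_neg (fun hh => h2 hh.2)]
      have h3 : star (v k) * (v i * star (v j)) * v l = 0 := by
        calc star (v k) * (v i * star (v j)) * v l = (star (v k) * v i) * (star (v j) * v l) := by
              simp only [mul_assoc]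
          _ = 0 := by rw [h.ort j l h2, mul_zero]
      rw [h3, lift_zero]
  · rw [if_neg (fun hh => h1 hh.1)]
    have h3 : star (v k) * (v i * star (v j)) * v l = 0 := by
      calc star (v k) * (v i * star (v j)) * v l = (star (v k) * v i) * (star (v j) * v l) := by
            simp only [mul_assoc]
        _ = 0 := by rw [h.ort k i h1, zero_mul]
    rw [h3, lift_zero]

theorem Y_sum {J : Type} (s : Finset J) (f : J → A) (k l : I) :
    Y v (∑ a ∈ s, f a) k l = ∑ a ∈ s, Y v (f a) k l := by
  unfold Y
  rw [Finset.mul_sum, Finset.sum_mul, lift_sum]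

theorem Y_norm [Nonempty I] (h : IsMU v g) (y : A) (i j : I) : ‖Y v y i j‖ ≤ ‖y‖ := by
  unfold Y
  have h1 : g * (star (v i) * y * v j) = star (v i) * y * v j := by
    rw [← mul_assoc, ← mul_assoc, gs h]
  refine (norm_lift h _ h1).trans ?_
  calc ‖star (v i) * y * v j‖ ≤ ‖star (v i)‖ * ‖y‖ * ‖v j‖ :=
        (norm_mul_le _ _).trans (mul_le_mul_of_nonneg_right (norm_mul_le _ _) (norm_nonneg _))
    _ ≤ 1 * ‖y‖ * 1 := by
        rw [norm_star]
        have h2 := nv h i
        have h3 := nv h j
        gcongr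
    _ = ‖y‖ := by ring

theorem Y_tr [Nonempty I] {τ : A →ₗ[ℂ] ℂ} (hτ : TW τ) (h : IsMU v g) (y : A) :
    ∑ i, τ (Y v y i i) = Fintype.card I * τ y := by
  have h1 : ∀ i, τ (Y v y i i) = Fintype.card I * τ (y * (v i * star (v i))) := by
    intro i
    unfold Y
    rw [tau_lift hτ h]
    congr 1
    calc τ (g * (star (v i) * y * v i)) = τ ((g * star (v i)) * (y * v i)) := by
          simp only [mul_assoc]
      _ = τ ((y * v i) * star (v i)) := by rw [gs h, hτ.comm]
      _ = _ := by rw [mul_assoc]
  simp only [h1]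
  rw [← Finset.mul_sum, ← map_sum, ← Finset.mul_sum, h.sum, mul_one]

end BLK

open LIFTaux in
theorem p_BLK : S_BLK := by
  classical
  intro A B _ _ τ τ₁ n _ v g ι h hc
  have hne : Nonempty (ZMod n) := ⟨0⟩
  have hY : ∀ y i j, ∃ x, ι x = BLK.Y v y i j := fun y i j =>
    (hc.range _).2 fun k l => comm_lift h _ k l
  choose bl hbl using hY
  have hcom : ∀ b : B, ∀ i j, v i * star (v j) * ι b = ι b * (v i * star (v j)) :=
    fun b => (hc.range _).1 ⟨b, rfl⟩
  have hn0 : (n : ℂ) ≠ 0 := Nat.cast_ne_zero.2 (NeZero.ne n)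
  have hmul : ∀ x y i j, bl (x * y) i j = ∑ r, bl x i r * bl y r j := by
    intro x y i j
    apply hc.inj
    rw [hbl, BLK.Y_mul h, map_sum]
    refine Finset.sum_congr rfl fun r _ => ?_
    rw [map_mul, hbl, hbl]
  have hstr : ∀ y i j, bl (star y) i j = star (bl y j i) := by
    intro y i j
    apply hc.inj
    rw [hbl, map_star, hbl, BLK.Y_star]
  have htr : ∀ y, τ y = (n : ℂ)⁻¹ * ∑ i, τ₁ (bl y i i) := by
    intro y
    have h1 : ∀ i, τ₁ (bl y i i) = τ (BLK.Y v y i i) := by
      intro i
      rw [← hc.tr, hbl]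
    simp only [h1]
    rw [BLK.Y_tr hc.tw h, ZMod.card, ← mul_assoc, inv_mul_cancel₀ hn0, one_mul]
  have hiot : ∀ b i j, bl (ι b) i j = if i = j then b else 0 := by
    intro b i j
    apply hc.inj
    rw [hbl, BLK.Y_com h (hcom b)]
    by_cases hij : i = j
    · rw [if_pos hij, if_pos hij]
    · rw [if_neg hij, if_neg hij, map_zero]
  refine ⟨bl, ⟨?_, ?_, hmul, ?_, hstr, hiot, ?_, htr, ?_⟩⟩
  · intro y
    simp only [hbl]
    exact (BLK.Y_rep h y).symm
  · intro b k l
    apply hc.inj
    rw [hbl, BLK.Y_sum]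
    have h1 : ∀ i j, BLK.Y v (ι (b i j) * (v i * star (v j))) k l =
        if k = i ∧ j = l then ι (b i j) else 0 := by
      intro i j
      rw [BLK.Y_mul h]
      have h2 : ∀ r, BLK.Y v (ι (b i j)) k r * BLK.Y v (v i * star (v j)) r l =
          if k = r then (if r = i ∧ j = l then ι (b i j) else 0) else 0 := by
        intro r
        rw [BLK.Y_com h (hcom (b i j)), BLK.Y_e h]
        by_cases h3 : k = r
        · rw [if_pos h3, if_pos h3]
          by_cases h4 : r = i ∧ j = l
          · rw [if_pos h4, if_pos h4, mul_one]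
          · rw [if_neg h4, if_neg h4, mul_zero]
        · rw [if_neg h3, if_neg h3, zero_mul]
      simp only [h2]
      rw [Finset.sum_ite_eq]
      simp
    have h3 : ∀ i, BLK.Y v (∑ j, ι (b i j) * (v i * star (v j))) k l =
        if k = i then ι (b k l) else 0 := by
      intro i
      rw [BLK.Y_sum]
      simp only [h1]
      by_cases h4 : k = i
      · subst h4
        simp
      · simp [h4]
    simp only [h3]
    simp
  · intro x y i j
    apply hc.inj
    rw [hbl, map_sub, hbl, hbl]
    unfold BLK.Y
    rw [mul_sub, sub_mul, BLK.lift_sub]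
  · intro y
    rw [hc.tw.n2_sq, htr, Complex.mul_re]
    have h1 : ∀ i, τ₁ (bl (star y * y) i i) = ∑ r, ((n2 τ₁ (bl y r i) ^ 2 : ℝ) : ℂ) := by
      intro i
      rw [hmul, map_sum]
      refine Finset.sum_congr rfl fun r _ => ?_
      rw [hstr, hc.tw1.n2_sq']
    simp only [h1]
    rw [Finset.sum_comm]
    have h2 : (∑ i, ∑ r, ((n2 τ₁ (bl y r i) ^ 2 : ℝ) : ℂ)) =
        ((∑ i, ∑ r, n2 τ₁ (bl y r i) ^ 2 : ℝ) : ℂ) := by push_cast; rfl
    have h3 : (∑ r, ∑ i, ((n2 τ₁ (bl y r i) ^ 2 : ℝ) : ℂ)) =
        ((∑ r, ∑ i, n2 τ₁ (bl y r i) ^ 2 : ℝ) : ℂ) := by push_cast; rfl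
    rw [h3, Complex.ofReal_re, Complex.ofReal_im, mul_zero, sub_zero]
    have h4 : ((n : ℂ)⁻¹).re = (n : ℝ)⁻¹ := by
      have : ((n : ℂ)⁻¹) = (((n : ℝ)⁻¹ : ℝ) : ℂ) := by push_cast; rfl
      rw [this, Complex.ofReal_re]
    rw [h4]
  · intro y i j
    rw [← NonUnitalStarAlgHom.norm_map ι hc.inj, hbl]
    exact BLK.Y_norm h y i j

end Pool.Agent.H878R6.SC
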