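import Pool.Agent.H878R6.SC.Stubs

/-! Task C1 (helper553): choice of the diagonal unitary. -/

set_option autoImplicit false

open scoped ComplexOrder Topology InnerProductSpace BoundedContinuousFunction
open Filter

noncomputable section

namespace Pool.Agent.H878R6.SC

open Pool.Agent.H467F Pool.Agent.H518R4.UG

namespace C1

variable {B : Type} [CStarAlgebra B] {τ : B →ₗ[ℂ] ℂ}

/-- the unitaries -/
def ws (s : unitary B) (a : ℕ → unitary B) : ℕ → unitary B
  | 0 => 1
  | i + 1 => s * a i * ws s a i * star s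

theorem us (u : unitary B) : star (u : B) * (u : B) = 1 := Unitary.coe_star_mul_self u

theorem su (u : unitary B) : (u : B) * star (u : B) = 1 := Unitary.coe_mul_star_self u

theorem us' (u : unitary B) (z : B) : star (u : B) * ((u : B) * z) = z := by
  rw [← mul_assoc, us, one_mul]

theorem su' (u : unitary B) (z : B) : (u : B) * (star (u : B) * z) = z := by
  rw [← mul_assoc, su, one_mul]

theorem n2_ul (u : unitary B) (x : B) : Pool.Agent.H467F.n2 τ ((u : B) * x) =
    Pool.Agent.H467F.n2 τ x := by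
  unfold Pool.Agent.H467F.n2
  rw [star_mul, mul_assoc, us']

theorem n2_ur (h : TW τ) (u : unitary B) (x : B) : Pool.Agent.H467F.n2 τ (x * (u : B)) =
    Pool.Agent.H467F.n2 τ x := by
  rw [← h.n2_star, star_mul]
  have e : star (u : B) = ((star u : unitary B) : B) := rfl
  rw [e, n2_ul, h.n2_star]

theorem n2_lr (h : TW τ) (u v : unitary B) (x : B) :
    Pool.Agent.H467F.n2 τ ((u : B) * x * (v : B)) = Pool.Agent.H467F.n2 τ x := by
  rw [n2_ur h, n2_ul]

end C1

open C1 in
theorem p_C1 : S_C1 := by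
  intro n _ B _ τ hτ s a
  refine ⟨fun z => ws s a z.val, fun y e H1 H2 i j hi hj => ?_⟩
  have vi : ((i : ℕ) : ZMod n).val = i := ZMod.val_natCast_of_lt (by omega)
  have vj : ((j : ℕ) : ZMod n).val = j := ZMod.val_natCast_of_lt (by omega)
  have vi1 : (((i : ℕ) : ZMod n) + 1).val = i + 1 := by
    rw [show ((i : ℕ) : ZMod n) + 1 = ((i + 1 : ℕ) : ZMod n) by push_cast; rfl]
    exact ZMod.val_natCast_of_lt hi
  have vj1 : (((j : ℕ) : ZMod n) + 1).val = j + 1 := by
    rw [show ((j : ℕ) : ZMod n) + 1 = ((j + 1 : ℕ) : ZMod n) by push_cast; rfl]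
    exact ZMod.val_natCast_of_lt hj
  have h1 := H1 (i : ZMod n) (j : ZMod n)
  have h2 := H2 (i : ZMod n) (j : ZMod n)
  simp only [vi, vj, vi1, vj1] at h2
  obtain ⟨Y, hY⟩ : ∃ Y : B, Y = y ((i : ZMod n) + 1) ((j : ZMod n) + 1) := ⟨_, rfl⟩
  obtain ⟨X, hX⟩ : ∃ X : B, X = y (i : ZMod n) (j : ZMod n) := ⟨_, rfl⟩
  rw [← hY, ← hX] at h1 h2
  rw [← hX]
  obtain ⟨u1, hu1⟩ : ∃ u1 : unitary B, u1 = star (ws s a (i + 1)) := ⟨_, rfl⟩
  obtain ⟨u2, hu2⟩ : ∃ u2 : unitary B, u2 = ws s a (j + 1) := ⟨_, rfl⟩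
  have c1 : star ((ws s a (i + 1) : unitary B) : B) = (u1 : B) := by rw [hu1]; rfl
  rw [c1, ← hu2] at h2
  -- the identity
  have key : (u1 : B) * ((s : B) * X * star (s : B)) * (u2 : B) -
      (s : B) * (star (ws s a i : B) * X * (ws s a j : B)) * star (s : B) =
      ((s * star (ws s a i) * star (a i) : unitary B) : B) * (X * (a j : B) - (a i : B) * X) *
        ((ws s a j * star s : unitary B) : B) := by
    have e1 : (u1 : B) = (s : B) * (star (ws s a i : B) * (star (a i : B) * star (s : B))) := by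
      rw [← c1]
      show star ((s * a i * ws s a i * star s : unitary B) : B) = _
      simp only [Submonoid.coe_mul, Unitary.coe_star, star_mul, star_star, mul_assoc]
    have e2 : (u2 : B) = (s : B) * ((a j : B) * ((ws s a j : B) * star (s : B))) := by
      rw [hu2]
      show ((s * a j * ws s a j * star s : unitary B) : B) = _
      simp only [Submonoid.coe_mul, Unitary.coe_star, mul_assoc]
    rw [e1, e2]
    simp only [Submonoid.coe_mul, Unitary.coe_star, mul_assoc, mul_sub, sub_mul, us']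
  have g1 : Pool.Agent.H467F.n2 τ (X * (a j : B) - (a i : B) * X) =
      Pool.Agent.H467F.n2 τ ((u1 : B) * ((s : B) * X * star (s : B)) * (u2 : B) -
      (s : B) * (star (ws s a i : B) * X * (ws s a j : B)) * star (s : B)) := by
    rw [key, n2_lr hτ]
  have g2 := hτ.n2_tri ((u1 : B) * ((s : B) * X * star (s : B)) * (u2 : B))
    ((u1 : B) * Y * (u2 : B))
    ((s : B) * (star (ws s a i : B) * X * (ws s a j : B)) * star (s : B))
  have g3 : Pool.Agent.H467F.n2 τ ((u1 : B) * ((s : B) * X * star (s : B)) * (u2 : B) -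
      (u1 : B) * Y * (u2 : B)) ≤ e := by
    rw [← sub_mul, ← mul_sub, n2_lr hτ, n2_sub_comm]
    exact h1
  have g4 : Pool.Agent.H467F.n2 τ (X * (a j : B) - (a i : B) * X) ≤ 2 * e := by
    rw [g1]
    linarith
  exact g4

end Pool.Agent.H878R6.SC
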