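import Pool.Agent.H878R6.SC.Stubs

set_option autoImplicit false

namespace Pool.Agent.H878R6.SC

open Pool.Agent.H467F Pool.Agent.H518R4.UG

namespace C2

theorem n2_conj {B : Type} [CStarAlgebra B] {τ : B →ₗ[ℂ] ℂ} (h : TW τ) (s : unitary B) (x : B) :
    n2 τ ((s : B) * x * star (s : B)) = n2 τ x := by
  have h1 : star (s : B) * (s : B) = 1 := Unitary.coe_star_mul_self s
  unfold n2
  congr 2
  have e1 : star ((s : B) * x * star (s : B)) * ((s : B) * x * star (s : B)) =
      (s : B) * (star x * x * star (s : B)) := by
    rw [star_mul, star_mul, star_star]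
    calc (s : B) * (star x * star (s : B)) * ((s : B) * x * star (s : B))
        = (s : B) * star x * (star (s : B) * (s : B)) * x * star (s : B) := by
          simp only [mul_assoc]
      _ = (s : B) * (star x * x * star (s : B)) := by
          rw [h1]
          simp only [mul_assoc, mul_one]
  rw [e1, h.comm, mul_assoc, h1, mul_one]

end C2

theorem p_C2 : S_C2 := by
  intro n _ B _ τ h s y e hy i j r
  induction r with
  | zero =>
    simp only [Nat.cast_zero, add_zero, pow_zero, one_mul, star_one, mul_one, sub_self, zero_mul]
    rw [n2_zero]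
  | succ r ih =>
    have h1 := hy (i + r) (j + r)
    have h2 : n2 τ ((s : B) * y (i + r) (j + r) * star (s : B) -
        (s : B) ^ (r + 1) * y i j * star ((s : B) ^ (r + 1))) ≤ r * e := by
      have e1 : (s : B) * y (i + r) (j + r) * star (s : B) -
          (s : B) ^ (r + 1) * y i j * star ((s : B) ^ (r + 1)) =
          (s : B) * (y (i + r) (j + r) - (s : B) ^ r * y i j * star ((s : B) ^ r)) *
            star (s : B) := by
        rw [pow_succ', star_mul, mul_sub, sub_mul]
        simp only [mul_assoc]
      rw [e1, C2.n2_conj h]
      exact ih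
    have h3 := h.n2_tri (y (i + r + 1) (j + r + 1))
      ((s : B) * y (i + r) (j + r) * star (s : B))
      ((s : B) ^ (r + 1) * y i j * star ((s : B) ^ (r + 1)))
    push_cast
    rw [← add_assoc, ← add_assoc]
    linarith

end Pool.Agent.H878R6.SC
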