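import Pool.Agent.H878R6.SC.Stubs

set_option autoImplicit false

open scoped ComplexOrder Topology InnerProductSpace BoundedContinuousFunction
open Filter

noncomputable section

namespace Pool.Agent.H878R6.SC

open Pool.Agent.H467F Pool.Agent.H518R4.UG

namespace C3

variable {B : Type} [CStarAlgebra B] {τ : B →ₗ[ℂ] ℂ}

theorem n2_ul (u : unitary B) (x : B) : n2 τ ((u : B) * x) = n2 τ x := by
  unfold n2
  have : star ((u : B) * x) * ((u : B) * x) = star x * x := by
    rw [star_mul, mul_assoc, ← mul_assoc (star (u : B)) (u : B) x, Unitary.coe_star_mul_self,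
      one_mul]
  rw [this]

theorem n2_ur (h : TW τ) (u : unitary B) (x : B) : n2 τ (x * (u : B)) = n2 τ x := by
  unfold n2
  have h1 : star (x * (u : B)) * (x * (u : B)) = star (u : B) * (star x * x * (u : B)) := by
    rw [star_mul]
    noncomm_ring
  rw [h1, h.comm, mul_assoc, Unitary.mul_star_self_of_mem u.2, mul_one]

theorem n2_conj (h : TW τ) (u : unitary B) (x : B) :
    n2 τ ((u : B) * x * star (u : B)) = n2 τ x := by
  have h1 : star (u : B) = ((star u : unitary B) : B) := rfl
  rw [h1, n2_ur h, n2_ul]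

end C3

open C3

theorem p_C3 (hC2 : S_C2) : S_C3 := by
  intro K n _ c hc hK
  refine ⟨(n + 1) + Real.sqrt (K / c) * (2 + 2 * n) + 1, by positivity, ?_⟩
  intro B _ τ hτ s x hx
  obtain ⟨p, hp⟩ : ∃ p : ℕ, p + K + 2 = n := ⟨n - K - 2, by omega⟩
  have hpK : K + 1 ≤ p := by omega
  let a : ℕ → unitary B := fun i => if i < p then 1 else if i = p then -1 else
    if h : i - (p + 1) < K then s ^ i * x ⟨i - (p + 1), h⟩ * star (s ^ i) else 1
  have ha1 : ∀ i, i < p → ((a i : unitary B) : B) = 1 := by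
    intro i hi
    simp only [a, if_pos hi]
    rfl
  have hap : ((a p : unitary B) : B) = -1 := by
    simp only [a, lt_irrefl, if_false, if_true]
    rfl
  have hax : ∀ l : Fin K, ((a (p + 1 + l) : unitary B) : B) =
      (s : B) ^ (p + 1 + (l : ℕ)) * (x l : B) * star ((s : B) ^ (p + 1 + (l : ℕ))) := by
    intro l
    have e1 : ¬ (p + 1 + (l : ℕ) < p) := by omega
    have e2 : ¬ (p + 1 + (l : ℕ) = p) := by omega
    have e3 : p + 1 + (l : ℕ) - (p + 1) = l := by omega
    have e4 : p + 1 + (l : ℕ) - (p + 1) < K := by rw [e3]; exact l.2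
    have e5 : (⟨p + 1 + (l : ℕ) - (p + 1), e4⟩ : Fin K) = l := Fin.ext e3
    simp only [a, if_neg e1, if_neg e2, dif_pos e4, e5]
    simp
  refine ⟨a, ?_⟩
  intro y e h1 h2
  have he : 0 ≤ e := (n2_nonneg _ _).trans (h1 0 0)
  have hn0 : (0 : ℝ) ≤ n := Nat.cast_nonneg n
  have hC := hC2 n B τ hτ s y e h1
  -- powers of s
  have hconj : ∀ (r : ℕ) (z : B), n2 τ ((s : B) ^ r * z * star ((s : B) ^ r)) = n2 τ z := by
    intro r z
    have := n2_conj hτ (s ^ r) z
    simpa using this
  -- off diagonal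
  have hoff : ∀ i j : ZMod n, i ≠ j → n2 τ (y i j) ≤ (n + 1) * e := by
    intro i j hij
    obtain ⟨i', j', hi', hj', hd, hsm⟩ : ∃ i' j' : ℕ, i' + 1 < n ∧ j' + 1 < n ∧
        (i' : ZMod n) - (j' : ZMod n) = i - j ∧ n2 τ (y i' j') ≤ e := by
      have hd0 : (i - j).val ≠ 0 := by
        intro h0
        rw [ZMod.val_eq_zero] at h0
        exact hij (sub_eq_zero.1 h0)
      have hdn : (i - j).val < n := ZMod.val_lt _
      have hdc : ((i - j).val : ZMod n) = i - j := ZMod.natCast_zmod_val _
      by_cases hdp : (i - j).val ≤ p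
      · refine ⟨p, p - (i - j).val, by omega, by omega, ?_, ?_⟩
        · rw [Nat.cast_sub hdp, hdc]
          ring
        · have h3 := h2 p (p - (i - j).val) (by omega) (by omega)
          rw [hap, ha1 _ (by omega)] at h3
          have h4 : y (p : ZMod n) ((p - (i - j).val : ℕ) : ZMod n) * 1 -
              (-1) * y (p : ZMod n) ((p - (i - j).val : ℕ) : ZMod n) =
              (2 : ℂ) • y (p : ZMod n) ((p - (i - j).val : ℕ) : ZMod n) := by
            rw [mul_one, neg_one_mul, sub_neg_eq_add, two_smul]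
          rw [h4, n2_smul] at h3
          have : ‖(2 : ℂ)‖ = 2 := by norm_num
          rw [this] at h3
          linarith
      · refine ⟨p + (i - j).val - n, p, by omega, by omega, ?_, ?_⟩
        · have hle : n ≤ p + (i - j).val := by omega
          rw [Nat.cast_sub hle, Nat.cast_add, hdc, ZMod.natCast_self]
          ring
        · have h3 := h2 (p + (i - j).val - n) p (by omega) (by omega)
          rw [hap, ha1 _ (by omega)] at h3
          have h4 : y ((p + (i - j).val - n : ℕ) : ZMod n) (p : ZMod n) * (-1) -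
              1 * y ((p + (i - j).val - n : ℕ) : ZMod n) (p : ZMod n) =
              (-2 : ℂ) • y ((p + (i - j).val - n : ℕ) : ZMod n) (p : ZMod n) := by
            rw [mul_neg_one, one_mul, neg_smul, two_smul]
            abel
          rw [h4, n2_smul] at h3
          have : ‖(-2 : ℂ)‖ = 2 := by norm_num
          rw [this] at h3
          linarith
    have h3 := hC (i' : ZMod n) (j' : ZMod n) (i - i').val
    have e1 : (i' : ZMod n) + ((i - (i' : ZMod n)).val : ZMod n) = i := by
      rw [ZMod.natCast_zmod_val]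
      ring
    have e2 : (j' : ZMod n) + ((i - (i' : ZMod n)).val : ZMod n) = j := by
      rw [ZMod.natCast_zmod_val]
      have : (j' : ZMod n) = (i' : ZMod n) - (i - j) := by rw [← hd]; ring
      rw [this]
      ring
    rw [e1, e2] at h3
    have hr : (((i - (i' : ZMod n)).val : ℕ) : ℝ) ≤ n := by
      exact_mod_cast (ZMod.val_lt (i - (i' : ZMod n))).le
    have h4 : n2 τ (y i j) ≤ n2 τ (y i j - (s : B) ^ (i - (i' : ZMod n)).val * y i' j' *
        star ((s : B) ^ (i - (i' : ZMod n)).val)) +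
        n2 τ ((s : B) ^ (i - (i' : ZMod n)).val * y i' j' *
        star ((s : B) ^ (i - (i' : ZMod n)).val)) := by
      have := hτ.n2_add_le (y i j - (s : B) ^ (i - (i' : ZMod n)).val * y i' j' *
        star ((s : B) ^ (i - (i' : ZMod n)).val)) ((s : B) ^ (i - (i' : ZMod n)).val * y i' j' *
        star ((s : B) ^ (i - (i' : ZMod n)).val))
      rwa [sub_add_cancel] at this
    rw [hconj] at h4
    have h5 : (((i - (i' : ZMod n)).val : ℕ) : ℝ) * e ≤ n * e := mul_le_mul_of_nonneg_right hr he
    linarith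
  -- diagonal
  have hdiag : ∀ i : ZMod n, n2 τ (y i i - (s : B) ^ i.val * y 0 0 * star ((s : B) ^ i.val)) ≤
      n * e := by
    intro i
    have h3 := hC 0 0 i.val
    rw [zero_add, ZMod.natCast_zmod_val] at h3
    have hr : ((i.val : ℕ) : ℝ) ≤ n := by
      exact_mod_cast (ZMod.val_lt i).le
    exact h3.trans (mul_le_mul_of_nonneg_right hr he)
  have hcm : ∀ l : Fin K, n2 τ (cm (x l : B) (y 0 0)) ≤ (2 + 2 * n) * e := by
    intro l
    have hl := l.2
    have h3 := h2 (p + 1 + l) (p + 1 + l) (by omega) (by omega)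
    have h4 := hC 0 0 (p + 1 + l)
    rw [zero_add] at h4
    have hr : ((p + 1 + (l : ℕ) : ℕ) : ℝ) ≤ n := by
      exact_mod_cast (by omega : p + 1 + (l : ℕ) ≤ n)
    have h5 := h4.trans (mul_le_mul_of_nonneg_right hr he)
    generalize hr0 : p + 1 + (l : ℕ) = r at h3 h4 h5
    have hax' := hax l
    rw [hr0] at hax'
    have e1 : n2 τ (cm (x l : B) (y 0 0)) =
        n2 τ (((s : B) ^ r * y 0 0 * star ((s : B) ^ r)) * (a r : B) -
          (a r : B) * ((s : B) ^ r * y 0 0 * star ((s : B) ^ r))) := by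
      rw [← hconj r (cm (x l : B) (y 0 0)), hax', n2_sub_comm]
      congr 1
      have hs : star ((s : B) ^ r) * (s : B) ^ r = 1 := by
        have := Unitary.coe_star_mul_self (s ^ r)
        simpa using this
      have e2 : (s : B) ^ r * (x l : B) * star ((s : B) ^ r) *
          ((s : B) ^ r * y 0 0 * star ((s : B) ^ r)) =
          (s : B) ^ r * (x l : B) * (star ((s : B) ^ r) * (s : B) ^ r) * y 0 0 *
            star ((s : B) ^ r) := by noncomm_ring
      have e3 : (s : B) ^ r * y 0 0 * star ((s : B) ^ r) *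
          ((s : B) ^ r * (x l : B) * star ((s : B) ^ r)) =
          (s : B) ^ r * y 0 0 * (star ((s : B) ^ r) * (s : B) ^ r) * (x l : B) *
            star ((s : B) ^ r) := by noncomm_ring
      rw [e2, e3, hs, cm]
      noncomm_ring
    rw [e1]
    generalize hw : (s : B) ^ r * y 0 0 * star ((s : B) ^ r) = w at h5
    have e4 : w * (a r : B) - (a r : B) * w =
        (y r r * (a r : B) - (a r : B) * y r r) - ((y r r - w) * (a r : B) -
          (a r : B) * (y r r - w)) := by noncomm_ring
    rw [e4]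
    have h6 := hτ.n2_sub_le (y r r * (a r : B) - (a r : B) * y r r)
      ((y r r - w) * (a r : B) - (a r : B) * (y r r - w))
    have h7 := hτ.n2_sub_le ((y r r - w) * (a r : B)) ((a r : B) * (y r r - w))
    rw [n2_ur hτ, n2_ul] at h7
    linarith
  have hl0 : n2 τ (y 0 0 - τ (y 0 0) • (1 : B)) ≤ Real.sqrt (K / c) * (2 + 2 * n) * e := by
    have hz : τ (y 0 0 - τ (y 0 0) • (1 : B)) = 0 := by
      rw [map_sub, map_smul, hτ.one, smul_eq_mul, mul_one, sub_self]
    have h3 := hx _ hz
    have h4 : ∀ l : Fin K, cm (x l : B) (y 0 0 - τ (y 0 0) • (1 : B)) = cm (x l : B) (y 0 0) := by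
      intro l
      unfold cm
      rw [mul_sub, sub_mul, mul_smul_comm, smul_mul_assoc, mul_one, one_mul]
      abel
    have h5 : ∑ l, n2 τ (cm (x l : B) (y 0 0 - τ (y 0 0) • (1 : B))) ^ 2 ≤
        ∑ _l : Fin K, ((2 + 2 * (n : ℝ)) * e) ^ 2 := by
      apply Finset.sum_le_sum
      intro l _
      rw [h4]
      exact pow_le_pow_left₀ (n2_nonneg _ _) (hcm l) 2
    rw [Finset.sum_const, Finset.card_univ, Fintype.card_fin, nsmul_eq_mul] at h5
    have h6 := h3.trans h5
    have h7 : n2 τ (y 0 0 - τ (y 0 0) • (1 : B)) ^ 2 ≤ (Real.sqrt (K / c) * (2 + 2 * n) * e) ^ 2 := by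
      have : (Real.sqrt (K / c) * (2 + 2 * n) * e) ^ 2 = (K / c) * ((2 + 2 * (n : ℝ)) * e) ^ 2 := by
        rw [mul_assoc, mul_pow, Real.sq_sqrt (by positivity)]
      rw [this, div_mul_eq_mul_div, le_div_iff₀ hc]
      linarith
    exact le_of_sq_le_sq h7 (by positivity)
  refine ⟨τ (y 0 0), ?_⟩
  intro i j
  by_cases hij : i = j
  · subst hij
    rw [if_pos rfl]
    have h3 := hdiag i
    have h4 : n2 τ ((s : B) ^ i.val * y 0 0 * star ((s : B) ^ i.val) - τ (y 0 0) • (1 : B)) =
        n2 τ (y 0 0 - τ (y 0 0) • (1 : B)) := by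
      rw [← hconj i.val (y 0 0 - τ (y 0 0) • (1 : B))]
      congr 1
      have hs : (s : B) ^ i.val * star ((s : B) ^ i.val) = 1 := by
        have := Unitary.coe_mul_star_self (s ^ i.val)
        simpa using this
      rw [mul_sub, sub_mul, mul_smul_comm, smul_mul_assoc, mul_one, hs]
    have h5 := hτ.n2_tri (y i i) ((s : B) ^ i.val * y 0 0 * star ((s : B) ^ i.val))
      (τ (y 0 0) • (1 : B))
    rw [h4] at h5
    have h6 : 0 ≤ e := he
    nlinarith
  · rw [if_neg hij, sub_zero]
    have h3 := hoff i j hij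
    have h4 : 0 ≤ Real.sqrt (K / c) * (2 + 2 * n) := by positivity
    nlinarith

end Pool.Agent.H878R6.SC
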