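import Pool.Agent.H878R6.SC.Stubs

set_option autoImplicit false

open scoped ComplexOrder Topology InnerProductSpace BoundedContinuousFunction
open Filter

noncomputable section

namespace Pool.Agent.H878R6.SC

open Pool.Agent.H467F Pool.Agent.H518R4.UG

namespace COMM

variable {H : Type} [NormedAddCommGroup H] [InnerProductSpace ℂ H] [CompleteSpace H]

/-- The relative commutant. -/
def cen (N : VonNeumannAlgebra H) (T : Set (Elt N)) : VonNeumannAlgebra H where
  toStarSubalgebra := StarSubalgebra.centralizer ℂ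
    ((Set.centralizer (N : Set (H →L[ℂ] H))) ∪ (Subtype.val '' T))
  centralizer_centralizer' := by
    show Set.centralizer (Set.centralizer ((StarSubalgebra.centralizer ℂ
      ((Set.centralizer (N : Set (H →L[ℂ] H))) ∪ (Subtype.val '' T)) :
        StarSubalgebra ℂ (H →L[ℂ] H)) : Set (H →L[ℂ] H))) = ((StarSubalgebra.centralizer ℂ
      ((Set.centralizer (N : Set (H →L[ℂ] H))) ∪ (Subtype.val '' T)) :
        StarSubalgebra ℂ (H →L[ℂ] H)) : Set (H →L[ℂ] H))
    rw [StarSubalgebra.coe_centralizer, Set.centralizer_centralizer_centralizer]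

theorem mem_cen (N : VonNeumannAlgebra H) (T : Set (Elt N)) (hT : ∀ a ∈ T, star a ∈ T)
    (x : H →L[ℂ] H) :
    x ∈ (cen N T).toStarSubalgebra ↔
      x ∈ N.toStarSubalgebra ∧ ∀ a ∈ T, (a : H →L[ℂ] H) * x = x * (a : H →L[ℂ] H) := by
  show x ∈ StarSubalgebra.centralizer ℂ
    ((Set.centralizer (N : Set (H →L[ℂ] H))) ∪ (Subtype.val '' T)) ↔ _
  rw [StarSubalgebra.mem_centralizer_iff]
  constructor
  · intro h
    refine ⟨?_, fun a ha => (h a (Or.inr ⟨a, ha, rfl⟩)).1⟩
    have h2 : x ∈ Set.centralizer (Set.centralizer (N : Set (H →L[ℂ] H))) := by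
      rw [Set.mem_centralizer_iff]
      exact fun m hm => (h m (Or.inl hm)).1
    rw [VonNeumannAlgebra.centralizer_centralizer] at h2
    exact h2
  · rintro ⟨h1, h2⟩ m hm
    rcases hm with hm | ⟨a, ha, rfl⟩
    · rw [Set.mem_centralizer_iff] at hm
      refine ⟨(hm x h1).symm, ?_⟩
      have h3 := hm (star x) (star_mem (s := N.toStarSubalgebra) h1)
      have h4 := congrArg star h3
      rw [star_mul, star_mul, star_star] at h4
      exact h4
    · exact ⟨h2 a ha, h2 (star a) (hT a ha)⟩

theorem mu_right {A : Type} [CStarAlgebra A] {n : ℕ} [NeZero n] {v : ZMod n → A} {g : A}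
    (h : IsMU v g) (i : ZMod n) : v i * g = v i := by
  have h1 : v i = (∑ j, v j * star (v j)) * v i := by rw [h.sum, one_mul]
  rw [Finset.sum_mul, Finset.sum_eq_single i] at h1
  · rw [mul_assoc, h.ini] at h1
    exact h1.symm
  · intro j _ hj
    rw [mul_assoc, h.ort j i hj, mul_zero]
  · intro hi
    exact absurd (Finset.mem_univ i) hi

theorem mu_mul {A : Type} [CStarAlgebra A] {n : ℕ} [NeZero n] {v : ZMod n → A} {g : A}
    (h : IsMU v g) (i j k l : ZMod n) :
    v i * star (v j) * (v k * star (v l)) = if j = k then v i * star (v l) else 0 := by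
  have h1 : v i * star (v j) * (v k * star (v l)) = v i * (star (v j) * v k) * star (v l) := by
    noncomm_ring
  rw [h1]
  split_ifs with hjk
  · subst hjk
    rw [h.ini, mu_right h]
  · rw [h.ort j k hjk, mul_zero, zero_mul]

/-- The entries. -/
def ent {A : Type} [CStarAlgebra A] {n : ℕ} [NeZero n] (v : ZMod n → A) (y : A)
    (i j : ZMod n) : A := ∑ r, v r * star (v i) * y * (v j * star (v r))

theorem ent_comm {A : Type} [CStarAlgebra A] {n : ℕ} [NeZero n] {v : ZMod n → A} {g : A}
    (h : IsMU v g) (y : A) (i j k l : ZMod n) :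
    v k * star (v l) * ent v y i j = ent v y i j * (v k * star (v l)) := by
  unfold ent
  rw [Finset.mul_sum, Finset.sum_mul, Finset.sum_eq_single l, Finset.sum_eq_single k]
  · have h1 : v k * star (v l) * (v l * star (v i) * y * (v j * star (v l))) =
        (v k * star (v l) * (v l * star (v i))) * y * (v j * star (v l)) := by noncomm_ring
    have h2 : v k * star (v i) * y * (v j * star (v k)) * (v k * star (v l)) =
        v k * star (v i) * y * (v j * star (v k) * (v k * star (v l))) := by noncomm_ring
    rw [h1, h2, mu_mul h, mu_mul h, if_pos rfl, if_pos rfl]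
  · intro r _ hr
    have h2 : v r * star (v i) * y * (v j * star (v r)) * (v k * star (v l)) =
        v r * star (v i) * y * (v j * star (v r) * (v k * star (v l))) := by noncomm_ring
    rw [h2, mu_mul h, if_neg hr, mul_zero]
  · intro hi
    exact absurd (Finset.mem_univ _) hi
  · intro r _ hr
    have h1 : v k * star (v l) * (v r * star (v i) * y * (v j * star (v r))) =
        (v k * star (v l) * (v r * star (v i))) * y * (v j * star (v r)) := by noncomm_ring
    rw [h1, mu_mul h, if_neg (Ne.symm hr), zero_mul, zero_mul]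
  · intro hi
    exact absurd (Finset.mem_univ _) hi

theorem ent_rep {A : Type} [CStarAlgebra A] {n : ℕ} [NeZero n] {v : ZMod n → A} {g : A}
    (h : IsMU v g) (y : A) :
    ∑ i, ∑ j, ent v y i j * (v i * star (v j)) = y := by
  have h1 : ∀ i j : ZMod n, ent v y i j * (v i * star (v j)) =
      v i * star (v i) * y * (v j * star (v j)) := by
    intro i j
    unfold ent
    rw [Finset.sum_mul, Finset.sum_eq_single i]
    · have h2 : v i * star (v i) * y * (v j * star (v i)) * (v i * star (v j)) =
        v i * star (v i) * y * (v j * star (v i) * (v i * star (v j))) := by noncomm_ring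
      rw [h2, mu_mul h, if_pos rfl]
    · intro r _ hr
      have h2 : v r * star (v i) * y * (v j * star (v r)) * (v i * star (v j)) =
        v r * star (v i) * y * (v j * star (v r) * (v i * star (v j))) := by noncomm_ring
      rw [h2, mu_mul h, if_neg hr, mul_zero]
    · intro hi
      exact absurd (Finset.mem_univ _) hi
  calc ∑ i, ∑ j, ent v y i j * (v i * star (v j))
      = ∑ i, ∑ j, v i * star (v i) * y * (v j * star (v j)) :=
        Finset.sum_congr rfl fun i _ => Finset.sum_congr rfl fun j _ => h1 i j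
    _ = (∑ i, v i * star (v i)) * y * (∑ j, v j * star (v j)) := by
        rw [Finset.sum_mul, Finset.sum_mul]
        refine Finset.sum_congr rfl fun i _ => ?_
        rw [Finset.mul_sum]
    _ = y := by rw [h.sum, one_mul, mul_one]

end COMM

open COMM in
theorem p_COMM : S_COMM := by
  intro H _ _ _ N t hN n _ v g hv
  set T : Set (Elt N) := Set.range fun p : ZMod n × ZMod n => v p.1 * star (v p.2) with hTdef
  have hT : ∀ a ∈ T, star a ∈ T := by
    rintro a ⟨p, rfl⟩
    exact ⟨(p.2, p.1), by simp [star_mul, star_star]⟩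
  have hle : (cen N T).toStarSubalgebra ≤ N.toStarSubalgebra := fun x hx =>
    ((mem_cen N T hT x).1 hx).1
  let ι : Elt (cen N T) →⋆ₐ[ℂ] Elt N := StarSubalgebra.inclusion hle
  have hι : ∀ x : Elt (cen N T), ((ι x : Elt N) : H →L[ℂ] H) = (x : H →L[ℂ] H) := fun x => rfl
  have hinj : Function.Injective ι := by
    intro x y hxy
    apply Subtype.ext
    rw [← hι x, ← hι y, hxy]
  have hrange : ∀ y : Elt N, (∃ x, ι x = y) ↔
      ∀ i j, v i * star (v j) * y = y * (v i * star (v j)) := by
    intro y
    constructor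
    · rintro ⟨x, rfl⟩ i j
      apply Subtype.ext
      exact ((mem_cen N T hT x).1 x.2).2 (v i * star (v j)) ⟨(i, j), rfl⟩
    · intro h
      refine ⟨⟨(y : H →L[ℂ] H), (mem_cen N T hT _).2 ⟨y.2, ?_⟩⟩, Subtype.ext rfl⟩
      rintro a ⟨p, rfl⟩
      exact congrArg Subtype.val (h p.1 p.2)
  have hent : ∀ (y : Elt N) (i j : ZMod n), ∃ x, ι x = ent v y i j := fun y i j =>
    (hrange _).2 fun k l => ent_comm hv y i j k l
  let t₁ : Elt (cen N T) →ₗ[ℂ] ℂ := t ∘ₗ ι.toAlgHom.toLinearMap
  have ht₁ : ∀ x, t (ι x) = t₁ x := fun x => rfl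
  refine ⟨cen N T, t₁, ι, ⟨?_, ?_, ?_, ?_⟩, ht₁, hinj, hrange⟩
  · intro z hz hc
    have hz' : z ∈ (cen N T).toStarSubalgebra := hz
    have hz2 := (mem_cen N T hT z).1 hz'
    let zz : Elt N := ⟨z, hz2.1⟩
    have hzz : ∀ i j, v i * star (v j) * zz = zz * (v i * star (v j)) := by
      intro i j
      apply Subtype.ext
      exact hz2.2 (v i * star (v j)) ⟨(i, j), rfl⟩
    refine hN.center z hz2.1 fun y hy => ?_
    let yy : Elt N := ⟨y, hy⟩
    have h1 : zz * yy = yy * zz := by
      rw [← ent_rep hv yy, Finset.mul_sum, Finset.sum_mul]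
      refine Finset.sum_congr rfl fun i _ => ?_
      rw [Finset.mul_sum, Finset.sum_mul]
      refine Finset.sum_congr rfl fun j _ => ?_
      obtain ⟨x, hx⟩ := hent yy i j
      have h2 : zz * ent v yy i j = ent v yy i j * zz := by
        rw [← hx]
        apply Subtype.ext
        exact hc x x.2
      rw [← mul_assoc, h2, mul_assoc, ← hzz, ← mul_assoc]
    exact congrArg Subtype.val h1
  · intro hfin
    apply hN.infinite
    let F : (ZMod n → ZMod n → Elt (cen N T)) →ₗ[ℂ] Elt N :=
      { toFun := fun b => ∑ i, ∑ j, ι (b i j) * (v i * star (v j))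
        map_add' := by
          intro b c
          simp only [Pi.add_apply, map_add, add_mul, Finset.sum_add_distrib]
        map_smul' := by
          intro r b
          simp only [Pi.smul_apply, map_smul, RingHom.id_apply, Finset.smul_sum, smul_mul_assoc] }
    refine Module.Finite.of_surjective F ?_
    intro y
    choose x hx using hent y
    refine ⟨x, ?_⟩
    show ∑ i, ∑ j, ι (x i j) * (v i * star (v j)) = y
    simp only [hx]
    exact ent_rep hv y
  · refine ⟨?_, ?_, ?_⟩
    · show t (ι 1) = 1
      rw [map_one]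
      exact hN.trace.one
    · intro x y
      show t (ι (x * y)) = t (ι (y * x))
      rw [map_mul ι, map_mul ι]
      exact hN.trace.tracial _ _
    · intro x hx
      have h1 : t (ι (star x * x)) = 0 := hx
      rw [map_mul ι, map_star ι] at h1
      have h2 := hN.trace.faithful _ h1
      apply hinj
      rw [h2, map_zero]
  · obtain ⟨ξ, h1, h2⟩ := hN.normal
    exact ⟨ξ, h1, fun x => h2 (ι x)⟩

end Pool.Agent.H878R6.SC
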