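import Pool.Agent.H878R6.SC.Stubs

/-!
Sequential commutation (MP_b14dba_an), task G2: the spectral gap of the two unitaries.
-/

set_option autoImplicit false

open scoped ComplexOrder Topology InnerProductSpace BoundedContinuousFunction
open Filter

noncomputable section

namespace Pool.Agent.H878R6.SC

open Pool.Agent.H467F Pool.Agent.H518R4.UG

namespace G2

theorem n2_one {A : Type} [CStarAlgebra A] {τ : A →ₗ[ℂ] ℂ} (h : TW τ) : n2 τ (1 : A) = 1 := by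
  unfold n2
  rw [star_one, one_mul, h.one]
  simp

theorem abs_tr_le {A : Type} [CStarAlgebra A] {τ : A →ₗ[ℂ] ℂ} (h : TW τ) (z : A) :
    ‖τ z‖ ≤ n2 τ z := by
  have h1 := h.cauchy' z 1
  rwa [mul_one, n2_one h, mul_one] at h1

/-- Centering at the trace loses a factor at most two. -/
theorem center_le {A : Type} [CStarAlgebra A] {τ : A →ₗ[ℂ] ℂ} (h : TW τ) (y : A) (l : ℂ) :
    n2 τ (y - τ y • (1 : A)) ≤ 2 * n2 τ (y - l • (1 : A)) := by
  have h1 := h.n2_tri y (l • (1 : A)) (τ y • (1 : A))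
  have h2 : n2 τ (l • (1 : A) - τ y • (1 : A)) = ‖l - τ y‖ := by
    rw [← sub_smul, n2_smul, n2_one h, mul_one]
  have h3 : ‖l - τ y‖ ≤ n2 τ (y - l • (1 : A)) := by
    have h4 := abs_tr_le h (y - l • (1 : A))
    rw [map_sub, map_smul, h.one, smul_eq_mul, mul_one] at h4
    rwa [norm_sub_rev]
  linarith

end G2

theorem p_G2 (hC1 : S_C1) (_hC2 : S_C2) (hC3 : S_C3) (hUW : S_UW) : S_G2 := by
  intro K n _ c hc hKn
  obtain ⟨D, hD, hC⟩ := hC3 K n c hc hKn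
  have hn0 : n ≠ 0 := NeZero.ne n
  have hn : (0 : ℝ) < n := by exact_mod_cast Nat.pos_of_ne_zero hn0
  refine ⟨2 * n * D, by positivity, ?_⟩
  intro A B _ _ τ τ₁ v g ι bl hMU hCom hBl s x hgap
  obtain ⟨a, ha⟩ := hC B τ₁ hCom.tw1 s x hgap
  obtain ⟨w, hw⟩ := hC1 n B τ₁ hCom.tw1 s a
  refine ⟨w, ?_⟩
  intro y
  set u1 := uu v ι (s : B) with hu1
  set u2 := ww v ι (fun i => (w i : B)) * uu v ι (s : B) *
    star (ww v ι (fun i => (w i : B))) with hu2
  obtain ⟨h1, h2⟩ := hUW A B τ τ₁ n v g ι bl hMU hCom hBl s w y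
  set e : ℝ := Real.sqrt n * (n2 τ (cm u1 y) + n2 τ (cm u2 y)) with he
  have hs0 : 0 ≤ Real.sqrt n := Real.sqrt_nonneg _
  have hc1 : 0 ≤ n2 τ (cm u1 y) := n2_nonneg _ _
  have hc2 : 0 ≤ n2 τ (cm u2 y) := n2_nonneg _ _
  have he0 : 0 ≤ e := by positivity
  have h1' : ∀ i j, n2 τ₁ (bl y (i + 1) (j + 1) - (s : B) * bl y i j * star (s : B)) ≤ e := by
    intro i j
    refine (h1 i j).trans ?_
    rw [he]
    exact mul_le_mul_of_nonneg_left (by linarith) hs0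
  have h2' : ∀ i j, n2 τ₁ (star (w (i + 1) : B) * bl y (i + 1) (j + 1) * w (j + 1) -
      (s : B) * (star (w i : B) * bl y i j * w j) * star (s : B)) ≤ e := by
    intro i j
    refine (h2 i j).trans ?_
    rw [he]
    exact mul_le_mul_of_nonneg_left (by linarith) hs0
  obtain ⟨l, hl⟩ := ha (bl y) e h1' (hw (bl y) e h1' h2')
  have hb : ∀ i j, bl (y - l • (1 : A)) i j = bl y i j - (if i = j then l • (1 : B) else 0) := by
    intro i j
    have h3 : l • (1 : A) = ι (l • (1 : B)) := by rw [map_smul, map_one]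
    rw [hBl.sub, h3, hBl.iot]
  have h4 : n2 τ (y - l • (1 : A)) ^ 2 ≤ (Real.sqrt n * (D * e)) ^ 2 := by
    rw [hBl.n2]
    have h5 : ∑ i : ZMod n, ∑ j : ZMod n,
        Pool.Agent.H467F.n2 τ₁ (bl (y - l • (1 : A)) i j) ^ 2 ≤
        ∑ i : ZMod n, ∑ j : ZMod n, (D * e) ^ 2 := by
      refine Finset.sum_le_sum fun i _ => Finset.sum_le_sum fun j _ => ?_
      rw [hb]
      exact pow_le_pow_left₀ (n2_nonneg _ _) (hl i j) 2
    have h6 : ∑ i : ZMod n, ∑ j : ZMod n, (D * e) ^ 2 = (n : ℝ) * (n * (D * e) ^ 2) := by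
      rw [Finset.sum_const, Finset.sum_const, Finset.card_univ, ZMod.card, nsmul_eq_mul,
        nsmul_eq_mul]
    rw [h6] at h5
    calc (n : ℝ)⁻¹ * ∑ i : ZMod n, ∑ j : ZMod n,
          Pool.Agent.H467F.n2 τ₁ (bl (y - l • (1 : A)) i j) ^ 2
        ≤ (n : ℝ)⁻¹ * ((n : ℝ) * (n * (D * e) ^ 2)) :=
          mul_le_mul_of_nonneg_left h5 (by positivity)
      _ = n * (D * e) ^ 2 := by field_simp
      _ = (Real.sqrt n * (D * e)) ^ 2 := by
          rw [mul_pow (Real.sqrt n), Real.sq_sqrt hn.le]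
  have h7 : n2 τ (y - l • (1 : A)) ≤ Real.sqrt n * (D * e) :=
    (pow_le_pow_iff_left₀ (n2_nonneg _ _) (by positivity) two_ne_zero).1 h4
  have h8 := G2.center_le hCom.tw y l
  have h9 : Real.sqrt n * (D * e) = n * D * (n2 τ (cm u1 y) + n2 τ (cm u2 y)) := by
    rw [he]
    have := Real.mul_self_sqrt hn.le
    calc Real.sqrt n * (D * (Real.sqrt n * (n2 τ (cm u1 y) + n2 τ (cm u2 y))))
        = (Real.sqrt n * Real.sqrt n) * (D * (n2 τ (cm u1 y) + n2 τ (cm u2 y))) := by ring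
      _ = n * D * (n2 τ (cm u1 y) + n2 τ (cm u2 y)) := by rw [this]; ring
  rw [h9] at h7
  calc n2 τ (y - τ y • (1 : A)) ≤ 2 * n2 τ (y - l • (1 : A)) := h8
    _ ≤ 2 * (n * D * (n2 τ (cm u1 y) + n2 τ (cm u2 y))) := by linarith
    _ = 2 * n * D * (n2 τ (cm u1 y) + n2 τ (cm u2 y)) := by ring

end Pool.Agent.H878R6.SC
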