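import Pool.Agent.H878R6.SC.Stubs

/-!
GAPD: a spectral gap passes to the commutant of matrix units.
-/

set_option autoImplicit false

open scoped ComplexOrder Topology InnerProductSpace BoundedContinuousFunction
open Filter

noncomputable section

namespace Pool.Agent.H878R6.SC

open Pool.Agent.H467F Pool.Agent.H518R4.UG

namespace GAPD

theorem bl_cm {A B : Type} [CStarAlgebra A] [CStarAlgebra B] {τ : A →ₗ[ℂ] ℂ} {τ₁ : B →ₗ[ℂ] ℂ}
    {n : ℕ} [NeZero n] {v : ZMod n → A} {ι : B →⋆ₐ[ℂ] A} {bl : A → ZMod n → ZMod n → B}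
    (hB : IsBl τ τ₁ v ι bl) (x : A) (b : B) (k l : ZMod n) :
    bl (cm x (ι b)) k l = cm (bl x k l) b := by
  unfold cm
  rw [hB.sub, hB.mul, hB.mul]
  congr 1
  · have h : ∀ r, bl x k r * bl (ι b) r l = if r = l then bl x k r * b else 0 := by
      intro r
      rw [hB.iot]
      split_ifs <;> simp
    simp only [h, Finset.sum_ite_eq', Finset.mem_univ, if_true]
  · have h : ∀ r, bl (ι b) k r * bl x r l = if k = r then b * bl x r l else 0 := by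
      intro r
      rw [hB.iot]
      split_ifs <;> simp
    simp only [h, Finset.sum_ite_eq, Finset.mem_univ, if_true]

theorem n2_iota {A B : Type} [CStarAlgebra A] [CStarAlgebra B] {τ : A →ₗ[ℂ] ℂ} {τ₁ : B →ₗ[ℂ] ℂ}
    {n : ℕ} [NeZero n] {v : ZMod n → A} {ι : B →⋆ₐ[ℂ] A} (hC : IsCom τ τ₁ v ι) (b : B) :
    n2 τ (ι b) = n2 τ₁ b := by
  unfold n2
  rw [← map_star, ← map_mul, hC.tr]

end GAPD

theorem p_GAPD : S_GAPD := by
  intro A B _ _ τ τ₁ n _ v ι bl hC hB k c hc hNG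
  unfold NG at hNG
  push Not at hNG
  obtain ⟨x, hx, hgap⟩ := hNG
  have hn : (0 : ℝ) < n := by
    have := NeZero.pos n
    exact_mod_cast this
  let e : Fin (Fintype.card (Fin k × ZMod n × ZMod n)) ≃ (Fin k × ZMod n × ZMod n) :=
    (Fintype.equivFin _).symm
  refine ⟨Fintype.card (Fin k × ZMod n × ZMod n), c * n, by positivity, ?_⟩
  intro h
  obtain ⟨b, hb0, hb⟩ := h (fun i => bl (x (e i).1) (e i).2.1 (e i).2.2)
    (fun i => (hB.nrm _ _ _).trans (hx _))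
  have h1 := hgap (ι b) (by rw [hC.tr]; exact hb0)
  rw [GAPD.n2_iota hC] at h1
  have h2 : ∑ i, n2 τ (cm (x i) (ι b)) ^ 2 =
      (n : ℝ)⁻¹ * ∑ p : Fin k × ZMod n × ZMod n, n2 τ₁ (cm (bl (x p.1) p.2.1 p.2.2) b) ^ 2 := by
    rw [Fintype.sum_prod_type, Finset.mul_sum]
    refine Finset.sum_congr rfl (fun i _ => ?_)
    rw [hB.n2, Fintype.sum_prod_type]
    congr 1
    refine Finset.sum_congr rfl (fun r _ => Finset.sum_congr rfl (fun l _ => ?_))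
    rw [GAPD.bl_cm hB]
  have h3 : ∑ i, n2 τ₁ (cm (bl (x (e i).1) (e i).2.1 (e i).2.2) b) ^ 2 =
      ∑ p : Fin k × ZMod n × ZMod n, n2 τ₁ (cm (bl (x p.1) p.2.1 p.2.2) b) ^ 2 :=
    Equiv.sum_comp e (fun p => n2 τ₁ (cm (bl (x p.1) p.2.1 p.2.2) b) ^ 2)
  rw [h3] at hb
  rw [h2] at h1
  have h4 : (n : ℝ)⁻¹ * ∑ p : Fin k × ZMod n × ZMod n,
      n2 τ₁ (cm (bl (x p.1) p.2.1 p.2.2) b) ^ 2 < (n : ℝ)⁻¹ * (c * n * n2 τ₁ b ^ 2) :=
    mul_lt_mul_of_pos_left hb (inv_pos.mpr hn)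
  have h5 : (n : ℝ)⁻¹ * (c * n * n2 τ₁ b ^ 2) = c * n2 τ₁ b ^ 2 := by
    field_simp
  linarith

end Pool.Agent.H878R6.SC
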