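import Mathlib
import Pool.Agent.H518R4.UG.Stubs

/-!
Sequential commutation (MP_b14dba_an): in every II_1 factor without property Gamma there are two
Haar unitaries `u, v` with a universal spectral gap; so nothing nontrivial in the ultrapower
commutes with both.  Exact statements of the tasks (table h878s_tasks).  For each `S_X` the task is
to prove `theorem p_X (…) : S_X`, where the hypotheses are the statements listed in the row.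
-/

set_option autoImplicit false

open scoped ComplexOrder Topology InnerProductSpace BoundedContinuousFunction
open Filter

noncomputable section

namespace Pool.Agent.H878R6.SC

open Pool.Agent.H467F Pool.Agent.H518R4.UG

/-- Haar unitaries. -/
def Haar {A : Type} [Ring A] [StarRing A] (φ : A → ℂ) (u : A) : Prop :=
  u ∈ unitary A ∧ ∀ j : ℕ, 1 ≤ j → φ (u ^ j) = 0 ∧ φ (star u ^ j) = 0

/-- `u, v` have spectral gap (with constant `C`). -/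
def Gap2 {A : Type} [CStarAlgebra A] (τ : A →ₗ[ℂ] ℂ) (C : ℝ) (u v : A) : Prop :=
  ∀ y : A, n2 τ (y - τ y • (1 : A)) ≤ C * (n2 τ (cm u y) + n2 τ (cm v y))

/-- The commutant of matrix units: `ι` is a trace preserving embedding of `B` onto the commutant of
the `v i * star (v j)` in `A`. -/
structure IsCom {A B : Type} [CStarAlgebra A] [CStarAlgebra B] (τ : A →ₗ[ℂ] ℂ) (τ₁ : B →ₗ[ℂ] ℂ)
    {n : ℕ} [NeZero n] (v : ZMod n → A) (ι : B →⋆ₐ[ℂ] A) : Prop where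
  tw : TW τ
  tw1 : TW τ₁
  tr : ∀ x, τ (ι x) = τ₁ x
  inj : Function.Injective ι
  range : ∀ y : A, (∃ x, ι x = y) ↔ ∀ i j, v i * star (v j) * y = y * (v i * star (v j))

/-- The matrix of an element with respect to the matrix units. -/
structure IsBl {A B : Type} [CStarAlgebra A] [CStarAlgebra B] (τ : A →ₗ[ℂ] ℂ) (τ₁ : B →ₗ[ℂ] ℂ)
    {n : ℕ} [NeZero n] (v : ZMod n → A) (ι : B →⋆ₐ[ℂ] A) (bl : A → ZMod n → ZMod n → B) :
    Prop where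
  rep : ∀ y, y = ∑ i, ∑ j, ι (bl y i j) * (v i * star (v j))
  bl_rep : ∀ (b : ZMod n → ZMod n → B) (k l : ZMod n),
    bl (∑ i, ∑ j, ι (b i j) * (v i * star (v j))) k l = b k l
  mul : ∀ x y i j, bl (x * y) i j = ∑ r, bl x i r * bl y r j
  sub : ∀ x y i j, bl (x - y) i j = bl x i j - bl y i j
  str : ∀ y i j, bl (star y) i j = star (bl y j i)
  iot : ∀ b i j, bl (ι b) i j = if i = j then b else 0
  n2 : ∀ y, n2 τ y ^ 2 = (n : ℝ)⁻¹ * ∑ i, ∑ j, Pool.Agent.H467F.n2 τ₁ (bl y i j) ^ 2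
  tr : ∀ y, τ y = (n : ℂ)⁻¹ * ∑ i, τ₁ (bl y i i)
  nrm : ∀ y i j, ‖bl y i j‖ ≤ ‖y‖

/-- HAAR: Haar unitaries exist. -/
def S_HAAR : Prop :=
  ∀ (A : Type) [CStarAlgebra A] (τ : A →ₗ[ℂ] ℂ), Fct τ → ∃ s : A, Haar τ s

/-- COMM: the relative commutant of matrix units of a II_1 factor is a II_1 factor. -/
def S_COMM : Prop :=
  ∀ (H : Type) [NormedAddCommGroup H] [InnerProductSpace ℂ H] [CompleteSpace H]
    (N : VonNeumannAlgebra H) (t : Elt N →ₗ[ℂ] ℂ), IsIIOneFactor N (t : Elt N → ℂ) →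
    ∀ (n : ℕ) [NeZero n] (v : ZMod n → Elt N) (g : Elt N), IsMU v g →
    ∃ (N₁ : VonNeumannAlgebra H) (t₁ : Elt N₁ →ₗ[ℂ] ℂ) (ι : Elt N₁ →⋆ₐ[ℂ] Elt N),
      IsIIOneFactor N₁ (t₁ : Elt N₁ → ℂ) ∧ (∀ x, t (ι x) = t₁ x) ∧ Function.Injective ι ∧
      ∀ y : Elt N, (∃ x, ι x = y) ↔ ∀ i j, v i * star (v j) * y = y * (v i * star (v j))

/-- BLK: block matrices over the commutant. -/
def S_BLK : Prop :=
  ∀ (A B : Type) [CStarAlgebra A] [CStarAlgebra B] (τ : A →ₗ[ℂ] ℂ) (τ₁ : B →ₗ[ℂ] ℂ)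
    (n : ℕ) [NeZero n] (v : ZMod n → A) (g : A) (ι : B →⋆ₐ[ℂ] A), IsMU v g →
    IsCom τ τ₁ v ι → ∃ bl : A → ZMod n → ZMod n → B, IsBl τ τ₁ v ι bl

/-- GAPD: a spectral gap passes to the commutant of matrix units. -/
def S_GAPD : Prop :=
  ∀ (A B : Type) [CStarAlgebra A] [CStarAlgebra B] (τ : A →ₗ[ℂ] ℂ) (τ₁ : B →ₗ[ℂ] ℂ)
    (n : ℕ) [NeZero n] (v : ZMod n → A) (ι : B →⋆ₐ[ℂ] A) (bl : A → ZMod n → ZMod n → B),
    IsCom τ τ₁ v ι → IsBl τ τ₁ v ι bl → ∀ (k : ℕ) (c : ℝ), 0 < c → ¬ NG τ k c →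
    ∃ (k' : ℕ) (c' : ℝ), 0 < c' ∧ ¬ NG τ₁ k' c'

/-- UGAP: a gap for `k` contractions gives a gap for `2 k` unitaries. -/
def S_UGAP : Prop :=
  ∀ (B : Type) [CStarAlgebra B] (τ : B →ₗ[ℂ] ℂ), TW τ → ∀ (k : ℕ) (c : ℝ), ¬ NG τ k c →
    ∃ x : Fin (2 * k) → unitary B, ∀ y : B, τ y = 0 →
      c / 2 * n2 τ y ^ 2 ≤ ∑ i, n2 τ (cm (x i : B) y) ^ 2

/-- C1: choice of the diagonal unitary. -/
def S_C1 : Prop :=
  ∀ (n : ℕ) [NeZero n] (B : Type) [CStarAlgebra B] (τ : B →ₗ[ℂ] ℂ), TW τ →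
    ∀ (s : unitary B) (a : ℕ → unitary B), ∃ w : ZMod n → unitary B,
    ∀ (y : ZMod n → ZMod n → B) (e : ℝ),
      (∀ i j, n2 τ (y (i + 1) (j + 1) - (s : B) * y i j * star (s : B)) ≤ e) →
      (∀ i j, n2 τ (star (w (i + 1) : B) * y (i + 1) (j + 1) * w (j + 1) -
        (s : B) * (star (w i : B) * y i j * w j) * star (s : B)) ≤ e) →
      ∀ i j : ℕ, i + 1 < n → j + 1 < n →
        n2 τ (y i j * a j - (a i : B) * y i j) ≤ 2 * e

/-- C2: going along the diagonals. -/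
def S_C2 : Prop :=
  ∀ (n : ℕ) [NeZero n] (B : Type) [CStarAlgebra B] (τ : B →ₗ[ℂ] ℂ), TW τ →
    ∀ (s : unitary B) (y : ZMod n → ZMod n → B) (e : ℝ),
      (∀ i j, n2 τ (y (i + 1) (j + 1) - (s : B) * y i j * star (s : B)) ≤ e) →
      ∀ (i j : ZMod n) (r : ℕ),
        n2 τ (y (i + r) (j + r) - (s : B) ^ r * y i j * star ((s : B) ^ r)) ≤ r * e

/-- C3: the matrix is almost scalar. -/
def S_C3 : Prop :=
  ∀ (K n : ℕ) [NeZero n] (c : ℝ), 0 < c → 2 * K + 3 ≤ n → ∃ C : ℝ, 0 < C ∧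
    ∀ (B : Type) [CStarAlgebra B] (τ : B →ₗ[ℂ] ℂ), TW τ → ∀ (s : unitary B)
      (x : Fin K → unitary B),
      (∀ y : B, τ y = 0 → c * n2 τ y ^ 2 ≤ ∑ i, n2 τ (cm (x i : B) y) ^ 2) →
    ∃ a : ℕ → unitary B, ∀ (y : ZMod n → ZMod n → B) (e : ℝ),
      (∀ i j, n2 τ (y (i + 1) (j + 1) - (s : B) * y i j * star (s : B)) ≤ e) →
      (∀ i j : ℕ, i + 1 < n → j + 1 < n →
        n2 τ (y i j * a j - (a i : B) * y i j) ≤ 2 * e) →
      ∃ l : ℂ, ∀ i j, n2 τ (y i j - (if i = j then l • (1 : B) else 0)) ≤ C * e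

/-- The shift times `s`. -/
def uu {A B : Type} [CStarAlgebra A] [CStarAlgebra B] {n : ℕ} [NeZero n] (v : ZMod n → A)
    (ι : B →⋆ₐ[ℂ] A) (s : B) : A := ∑ i, ι s * (v (i + 1) * star (v i))

/-- A diagonal matrix. -/
def ww {A B : Type} [CStarAlgebra A] [CStarAlgebra B] {n : ℕ} [NeZero n] (v : ZMod n → A)
    (ι : B →⋆ₐ[ℂ] A) (w : ZMod n → B) : A := ∑ i, ι (w i) * (v i * star (v i))

/-- UV: the two Haar unitaries. -/
def S_UV : Prop :=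
  ∀ (A B : Type) [CStarAlgebra A] [CStarAlgebra B] (τ : A →ₗ[ℂ] ℂ) (τ₁ : B →ₗ[ℂ] ℂ)
    (n : ℕ) [NeZero n] (v : ZMod n → A) (g : A) (ι : B →⋆ₐ[ℂ] A)
    (bl : A → ZMod n → ZMod n → B), IsMU v g → IsCom τ τ₁ v ι → IsBl τ τ₁ v ι bl →
    ∀ (s : unitary B) (w : ZMod n → unitary B), Haar τ₁ (s : B) →
      Haar τ (uu v ι (s : B)) ∧
      ww v ι (fun i => (w i : B)) ∈ unitary A ∧
      Haar τ (ww v ι (fun i => (w i : B)) * uu v ι (s : B) * star (ww v ι (fun i => (w i : B))))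

/-- UW: the commutators in terms of the matrices. -/
def S_UW : Prop :=
  ∀ (A B : Type) [CStarAlgebra A] [CStarAlgebra B] (τ : A →ₗ[ℂ] ℂ) (τ₁ : B →ₗ[ℂ] ℂ)
    (n : ℕ) [NeZero n] (v : ZMod n → A) (g : A) (ι : B →⋆ₐ[ℂ] A)
    (bl : A → ZMod n → ZMod n → B), IsMU v g → IsCom τ τ₁ v ι → IsBl τ τ₁ v ι bl →
    ∀ (s : unitary B) (w : ZMod n → unitary B) (y : A),
      (∀ i j, n2 τ₁ (bl y (i + 1) (j + 1) - (s : B) * bl y i j * star (s : B)) ≤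
        Real.sqrt n * n2 τ (cm (uu v ι (s : B)) y)) ∧
      (∀ i j, n2 τ₁ (star (w (i + 1) : B) * bl y (i + 1) (j + 1) * w (j + 1) -
        (s : B) * (star (w i : B) * bl y i j * w j) * star (s : B)) ≤
        Real.sqrt n * n2 τ (cm (ww v ι (fun i => (w i : B)) * uu v ι (s : B) *
          star (ww v ι (fun i => (w i : B)))) y))

/-- G2: the spectral gap of the two unitaries. -/
def S_G2 : Prop :=
  ∀ (K n : ℕ) [NeZero n] (c : ℝ), 0 < c → 2 * K + 3 ≤ n → ∃ C : ℝ, 0 < C ∧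
    ∀ (A B : Type) [CStarAlgebra A] [CStarAlgebra B] (τ : A →ₗ[ℂ] ℂ) (τ₁ : B →ₗ[ℂ] ℂ)
    (v : ZMod n → A) (g : A) (ι : B →⋆ₐ[ℂ] A)
    (bl : A → ZMod n → ZMod n → B), IsMU v g → IsCom τ τ₁ v ι → IsBl τ τ₁ v ι bl →
    ∀ (s : unitary B) (x : Fin K → unitary B),
      (∀ y : B, τ₁ y = 0 → c * n2 τ₁ y ^ 2 ≤ ∑ i, n2 τ₁ (cm (x i : B) y) ^ 2) →
    ∃ w : ZMod n → unitary B, Gap2 τ C (uu v ι (s : B))
      (ww v ι (fun i => (w i : B)) * uu v ι (s : B) * star (ww v ι (fun i => (w i : B))))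

/-- ULT: consequence for the ultrapowers. -/
def S_ULT : Prop :=
  ∀ (H : Type) [NormedAddCommGroup H] [InnerProductSpace ℂ H] [CompleteSpace H]
    (N : VonNeumannAlgebra H) (t : Elt N →ₗ[ℂ] ℂ), IsIIOneFactor N (t : Elt N → ℂ) →
    ∀ (C : ℝ) (u v : Elt N), Gap2 t C u v → ∀ (U : Ultrafilter ℕ) (Q : Type) [Ring Q]
    [StarRing Q] [Algebra ℂ Q] [StarModule ℂ Q] (π : (ℕ →ᵇ Elt N) →⋆ₐ[ℂ] Q) (σ : Q → ℂ),
    IsTracialUltrapower (t : Elt N → ℂ) U π σ → ∀ q : Q,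
      q * π (BoundedContinuousFunction.const ℕ u) = π (BoundedContinuousFunction.const ℕ u) * q →
      q * π (BoundedContinuousFunction.const ℕ v) = π (BoundedContinuousFunction.const ℕ v) * q →
      ∃ l : ℂ, q = l • (1 : Q)

end Pool.Agent.H878R6.SC
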