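import Mathlib
import Pool.Agent.H878R6.SC.Stubs
import Pool.Agent.Helper467.FP.P_tau_bounds

/-! Project SC (helper878), task HAAR: Haar unitaries exist (dyadic partitions). -/

set_option autoImplicit false

open scoped ComplexOrder Topology
open Filter Finset

noncomputable section

namespace Pool.Agent.H878R6.SC

open Pool.Agent.H467F Pool.Agent.H518R4.UG

namespace HAAR

variable {A : Type} [CStarAlgebra A] {τ : A →ₗ[ℂ] ℂ}

theorem prj_norm_le {p : A} (h : IsPrj p) : ‖p‖ ≤ 1 := by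
  have h1 : ‖p‖ * ‖p‖ = ‖p‖ := by
    rw [← CStarRing.norm_star_mul_self, h.1, h.2]
  by_contra hc
  push Not at hc
  nlinarith

theorem one_prj : IsPrj (1 : A) := ⟨star_one _, one_mul _⟩

theorem norm_le_of_iso {x : A} (h : star x * x = 1) : ‖x‖ ≤ 1 := by
  have h1 : ‖x‖ * ‖x‖ = ‖(1 : A)‖ := by
    rw [← CStarRing.norm_star_mul_self, h]
  have h2 := prj_norm_le (one_prj (A := A))
  nlinarith [norm_nonneg x]

/-- partial isometries -/
theorem pi_mul {w p : A} (hp : IsPrj p) (hw : star w * w = p) : w * p = w := by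
  have h1 : star (w - w * p) * (w - w * p) = 0 := by
    have e : star (w - w * p) * (w - w * p) =
        star w * w - (star w * w) * p - star p * (star w * w) + star p * (star w * w) * p := by
      rw [star_sub, star_mul]; noncomm_ring
    rw [e, hw, hp.1, hp.2, hp.2]; simp
  have h2 := (CStarRing.star_mul_self_eq_zero_iff _).1 h1
  exact (sub_eq_zero.1 h2).symm

theorem pi_prj {w p : A} (hp : IsPrj p) (hw : star w * w = p) : IsPrj (w * star w) := by
  refine ⟨by rw [star_mul, star_star], ?_⟩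
  calc w * star w * (w * star w) = w * (star w * w) * star w := by noncomm_ring
    _ = w * star w := by rw [hw, pi_mul hp hw]

theorem mu_prj {m : ℕ} {v : Fin (2 ^ m) → A} {g : A} (h : IsMU v g) (i : Fin (2 ^ m)) :
    IsPrj (v i * star (v i)) := by
  refine ⟨by rw [star_mul, star_star], ?_⟩
  have h1 : (∑ j, v j * star (v j)) * v i = v i := by rw [h.sum, one_mul]
  rw [sum_mul, Finset.sum_eq_single i] at h1
  · calc v i * star (v i) * (v i * star (v i)) = (v i * star (v i) * v i) * star (v i) := by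
          noncomm_ring
      _ = v i * star (v i) := by rw [h1]
  · intro j _ hj
    rw [mul_assoc, h.ort j i hj, mul_zero]
  · simp

theorem mu_tr (hτ : TW τ) {m : ℕ} {v : Fin (2 ^ m) → A} {g : A} (h : IsMU v g) (i : Fin (2 ^ m)) :
    τ (v i * star (v i)) = (1 / 2) ^ m := by
  have h1 : ∀ i, τ (v i * star (v i)) = τ g := fun i => by rw [hτ.comm, h.ini]
  have h2 : ∑ i, τ (v i * star (v i)) = 1 := by rw [← map_sum, h.sum, hτ.one]
  simp only [h1, sum_const, card_univ, Fintype.card_fin, nsmul_eq_mul] at h2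
  rw [h1]
  push_cast at h2
  have h3 : (2 : ℂ) ^ m ≠ 0 := pow_ne_zero _ two_ne_zero
  rw [one_div, inv_pow]
  field_simp
  rw [mul_comm]
  exact h2

theorem half (hτ : Fct τ) (m : ℕ) (e : A) (he : IsPrj e) (ht : τ e = (1 / 2) ^ m) :
    ∃ q : A, IsPrj q ∧ e * q = q ∧ τ q = (1 / 2) ^ (m + 1) := by
  obtain ⟨v, g, hv⟩ := hτ.mu (m + 1)
  have hg := mu_prj hv ⟨0, by positivity⟩
  have hgt := mu_tr hτ.tw hv ⟨0, by positivity⟩
  set g0 := v ⟨0, by positivity⟩ * star (v ⟨0, by positivity⟩) with hg0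
  rcases hτ.comp g0 e hg he with ⟨w, hw1, hw2⟩ | ⟨w, hw1, hw2⟩
  · refine ⟨w * star w, pi_prj hg hw1, by rw [← mul_assoc, hw2], ?_⟩
    rw [hτ.tw.comm, hw1, hgt]
  · exfalso
    have hp := pi_prj he hw1
    have hgp : g0 * (w * star w) = w * star w := by rw [← mul_assoc, hw2]
    have hpg : (w * star w) * g0 = w * star w := by
      have := congrArg star hgp
      rw [star_mul, hp.1, hg.1] at this
      exact this
    have hy : star (g0 - w * star w) * (g0 - w * star w) = g0 - w * star w := by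
      rw [star_sub, hg.1, hp.1, sub_mul, mul_sub, mul_sub, hg.2, hgp, hpg, hp.2]
      abel
    have h1 := hτ.tw.re_nonneg (g0 - w * star w)
    rw [hy, map_sub, hτ.tw.comm w, hw1, hgt, ht] at h1
    have h2 : (((1 / 2 : ℂ)) ^ (m + 1) - (1 / 2) ^ m) = (((1 / 2 : ℝ) ^ (m + 1) - (1 / 2) ^ m : ℝ) : ℂ) := by
      push_cast; ring
    rw [h2, Complex.ofReal_re, pow_succ] at h1
    have h3 : (0 : ℝ) < (1 / 2) ^ m := by positivity
    linarith

open Classical in
/-- half of a projection -/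
def hf (τ : A →ₗ[ℂ] ℂ) (m : ℕ) (e : A) : A :=
  if h : ∃ q : A, IsPrj q ∧ e * q = q ∧ τ q = (1 / 2) ^ (m + 1) then h.choose else 0

theorem hf_spec (hτ : Fct τ) (m : ℕ) (e : A) (he : IsPrj e) (ht : τ e = (1 / 2) ^ m) :
    IsPrj (hf τ m e) ∧ e * hf τ m e = hf τ m e ∧ hf τ m e * e = hf τ m e ∧
      τ (hf τ m e) = (1 / 2) ^ (m + 1) := by
  have h := half hτ m e he ht
  have h1 : hf τ m e = h.choose := by
    unfold hf
    rw [dif_pos h]
  obtain ⟨a, b, c⟩ := h.choose_spec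
  rw [← h1] at a b c
  refine ⟨a, b, ?_, c⟩
  have := congrArg star b
  rw [star_mul, a.1, he.1] at this
  exact this

/-- the dyadic partitions -/
def rr (τ : A →ₗ[ℂ] ℂ) : ℕ → ℕ → A
  | 0, _ => 1
  | m + 1, k => if k % 2 = 0 then rr τ m (k / 2) - hf τ m (rr τ m (k / 2)) else
      hf τ m (rr τ m (k / 2))

theorem rr_succ (m k : ℕ) : rr τ (m + 1) k =
    if k % 2 = 0 then rr τ m (k / 2) - hf τ m (rr τ m (k / 2)) else
      hf τ m (rr τ m (k / 2)) := rfl

theorem rr_prj (hτ : Fct τ) (m : ℕ) : ∀ k, IsPrj (rr τ m k) ∧ τ (rr τ m k) = (1 / 2) ^ m := by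
  induction m with
  | zero => intro k; exact ⟨one_prj, by simp [rr, hτ.tw.one]⟩
  | succ m ih =>
    intro k
    obtain ⟨he, ht⟩ := ih (k / 2)
    obtain ⟨a, b, c, d⟩ := hf_spec hτ m _ he ht
    rw [rr_succ]
    split_ifs
    · refine ⟨⟨by rw [star_sub, he.1, a.1], ?_⟩, ?_⟩
      · rw [sub_mul, mul_sub, mul_sub, he.2, b, c, a.2]; abel
      · rw [map_sub, ht, d, pow_succ]; ring
    · exact ⟨a, d⟩

theorem rr_le (hτ : Fct τ) (m k : ℕ) : rr τ (m + 1) k * rr τ m (k / 2) = rr τ (m + 1) k ∧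
    rr τ m (k / 2) * rr τ (m + 1) k = rr τ (m + 1) k := by
  obtain ⟨he, ht⟩ := rr_prj hτ m (k / 2)
  obtain ⟨a, b, c, d⟩ := hf_spec hτ m _ he ht
  rw [rr_succ]
  split_ifs
  · rw [sub_mul, mul_sub, he.2, b, c]; exact ⟨rfl, rfl⟩
  · exact ⟨c, b⟩

theorem rr_ort (hτ : Fct τ) (m : ℕ) : ∀ k l, k < 2 ^ m → l < 2 ^ m → k ≠ l →
    rr τ m k * rr τ m l = 0 := by
  induction m with
  | zero => intro k l hk hl hkl; omega
  | succ m ih =>
    intro k l hk hl hkl
    rw [pow_succ] at hk hl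
    by_cases h : k / 2 = l / 2
    · obtain ⟨he, ht⟩ := rr_prj hτ m (k / 2)
      obtain ⟨a, b, c, d⟩ := hf_spec hτ m _ he ht
      rw [rr_succ, rr_succ, ← h]
      split_ifs with h1 h2 h2
      · exfalso; omega
      · rw [sub_mul, b, a.2, sub_self]
      · rw [mul_sub, c, a.2, sub_self]
      · exfalso; omega
    · rw [← (rr_le hτ m k).1, ← (rr_le hτ m l).2]
      calc rr τ (m + 1) k * rr τ m (k / 2) * (rr τ m (l / 2) * rr τ (m + 1) l) =
          rr τ (m + 1) k * (rr τ m (k / 2) * rr τ m (l / 2)) * rr τ (m + 1) l := by noncomm_ring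
        _ = 0 := by rw [ih (k / 2) (l / 2) (by omega) (by omega) h]; simp

theorem sum_double {B : Type*} [AddCommMonoid B] (f : ℕ → B) (n : ℕ) :
    ∑ k ∈ range (n * 2), f k = ∑ k ∈ range n, (f (2 * k) + f (2 * k + 1)) := by
  induction n with
  | zero => simp
  | succ n ih =>
    rw [sum_range_succ, ← ih, show (n + 1) * 2 = n * 2 + 1 + 1 by ring, sum_range_succ,
      sum_range_succ, mul_comm n 2, add_assoc]

theorem rr_split (m k : ℕ) : rr τ (m + 1) (2 * k) + rr τ (m + 1) (2 * k + 1) = rr τ m k := by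
  rw [rr_succ, rr_succ, if_pos (by omega), if_neg (by omega),
    show 2 * k / 2 = k by omega, show (2 * k + 1) / 2 = k by omega]
  abel

theorem rr_sum (m : ℕ) : ∑ k ∈ range (2 ^ m), rr τ m k = 1 := by
  induction m with
  | zero => simp [rr]
  | succ m ih =>
    rw [pow_succ, sum_double]
    simp only [rr_split]
    exact ih

/-- the diagonal operators -/
def L (τ : A →ₗ[ℂ] ℂ) (m : ℕ) (c : ℕ → ℂ) : A := ∑ k ∈ range (2 ^ m), c k • rr τ m k

theorem L_mul (hτ : Fct τ) (m : ℕ) (c d : ℕ → ℂ) :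
    L τ m c * L τ m d = L τ m (fun k => c k * d k) := by
  unfold L
  rw [sum_mul_sum]
  refine sum_congr rfl fun k hk => ?_
  rw [mem_range] at hk
  rw [Finset.sum_eq_single k]
  · rw [smul_mul_smul_comm, (rr_prj hτ m k).1.2]
  · intro l hl hlk
    rw [mem_range] at hl
    rw [smul_mul_smul_comm, rr_ort hτ m k l hk hl (Ne.symm hlk), smul_zero]
  · intro h; exact absurd (mem_range.2 hk) h

theorem L_star (hτ : Fct τ) (m : ℕ) (c : ℕ → ℂ) :
    star (L τ m c) = L τ m (fun k => star (c k)) := by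
  unfold L
  rw [star_sum]
  refine sum_congr rfl fun k _ => ?_
  rw [star_smul, (rr_prj hτ m k).1.1]

theorem L_one (m : ℕ) : L τ m (fun _ => 1) = 1 := by
  unfold L
  simp only [one_smul]
  exact rr_sum m

theorem L_pow (hτ : Fct τ) (m : ℕ) (c : ℕ → ℂ) (j : ℕ) :
    L τ m c ^ j = L τ m (fun k => c k ^ j) := by
  induction j with
  | zero => simp [L_one]
  | succ j ih => rw [pow_succ, ih, L_mul hτ]; simp only [pow_succ]

theorem L_tr (hτ : Fct τ) (m : ℕ) (c : ℕ → ℂ) :
    τ (L τ m c) = (1 / 2) ^ m * ∑ k ∈ range (2 ^ m), c k := by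
  unfold L
  rw [map_sum, mul_sum]
  refine sum_congr rfl fun k _ => ?_
  rw [map_smul, (rr_prj hτ m k).2, smul_eq_mul, mul_comm]

theorem L_succ (m : ℕ) (c : ℕ → ℂ) : L τ m c = L τ (m + 1) (fun k => c (k / 2)) := by
  unfold L
  rw [pow_succ, sum_double]
  refine sum_congr rfl fun k _ => ?_
  beta_reduce
  rw [show 2 * k / 2 = k by omega, show (2 * k + 1) / 2 = k by omega, ← smul_add, rr_split]

/-- the roots of unity -/
def om (m : ℕ) : ℂ := Complex.exp (2 * Real.pi * Complex.I / ((2 ^ m : ℕ) : ℂ))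

theorem om_prim (m : ℕ) : IsPrimitiveRoot (om m) (2 ^ m) :=
  Complex.isPrimitiveRoot_exp (2 ^ m) (by positivity)

theorem om_star (m k : ℕ) : star (om m ^ k) * om m ^ k = 1 := by
  have h1 : ‖om m‖ = 1 := (om_prim m).norm'_eq_one (by positivity)
  rw [Complex.star_def, ← Complex.normSq_eq_conj_mul_self, Complex.normSq_eq_norm_sq, norm_pow, h1]
  simp

theorem om_sq (m : ℕ) : om (m + 1) ^ 2 = om m := by
  unfold om
  rw [← Complex.exp_nat_mul]
  congr 1
  push_cast
  rw [pow_succ]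
  field_simp

theorem om_sub (m : ℕ) : ‖om (m + 1) - 1‖ ≤ Real.pi * (1 / 2) ^ m := by
  have e : om (m + 1) = Complex.exp (Complex.I * ((Real.pi * (1 / 2) ^ m : ℝ) : ℂ)) := by
    unfold om
    congr 1
    push_cast
    rw [pow_succ]
    field_simp
    rw [← mul_pow]; simp
  rw [e]
  refine (Real.norm_exp_I_mul_ofReal_sub_one_le).trans ?_
  rw [Real.norm_eq_abs, abs_of_nonneg (by positivity)]

/-- the approximations -/
def uu' (τ : A →ₗ[ℂ] ℂ) (m : ℕ) : A := L τ m (fun k => om m ^ k)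

theorem uu_iso (hτ : Fct τ) (m : ℕ) : star (uu' τ m) * uu' τ m = 1 ∧
    uu' τ m * star (uu' τ m) = 1 := by
  unfold uu'
  rw [L_star hτ, L_mul hτ, L_mul hτ]
  constructor
  · simp only [om_star]; exact L_one m
  · have : ∀ k, om m ^ k * star (om m ^ k) = 1 := fun k => by rw [mul_comm]; exact om_star m k
    simp only [this]; exact L_one m

theorem uu_diff (hτ : Fct τ) (m : ℕ) : uu' τ (m + 1) - uu' τ m =
    (om (m + 1) - 1) • (L τ (m + 1) (fun k => om (m + 1) ^ (2 * (k / 2))) *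
      L τ (m + 1) (fun k => if k % 2 = 0 then 0 else 1)) := by
  unfold uu'
  rw [L_succ m, L_mul hτ]
  unfold L
  rw [smul_sum, ← sum_sub_distrib]
  refine sum_congr rfl fun k _ => ?_
  rw [← sub_smul, smul_smul]
  congr 1
  beta_reduce
  rw [← om_sq m, ← pow_mul]
  rcases Nat.mod_two_eq_zero_or_one k with h | h
  · rw [if_pos h, show 2 * (k / 2) = k by omega]; ring
  · rw [if_neg (by omega)]
    have : om (m + 1) ^ k = om (m + 1) ^ (2 * (k / 2)) * om (m + 1) := by
      rw [← pow_succ]; congr 1; omega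
    rw [this]; ring

theorem uu_dist (hτ : Fct τ) (m : ℕ) :
    dist (uu' τ m) (uu' τ (m + 1)) ≤ Real.pi * (1 / 2) ^ m := by
  rw [dist_comm, dist_eq_norm, uu_diff hτ, norm_smul]
  have h1 : ‖L τ (m + 1) (fun k => om (m + 1) ^ (2 * (k / 2)))‖ ≤ 1 := by
    apply norm_le_of_iso
    rw [L_star hτ, L_mul hτ]
    simp only [om_star]
    exact L_one _
  have h2 : ‖L τ (m + 1) (fun k => if k % 2 = 0 then 0 else 1)‖ ≤ 1 := by
    apply prj_norm_le
    constructor
    · rw [L_star hτ]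
      congr 1
      funext k
      split_ifs <;> simp
    · rw [L_mul hτ]
      congr 1
      funext k
      split_ifs <;> simp
  have h3 := norm_mul_le (L τ (m + 1) (fun k => om (m + 1) ^ (2 * (k / 2))))
    (L τ (m + 1) (fun k => if k % 2 = 0 then 0 else 1))
  have h4 : ‖L τ (m + 1) (fun k => om (m + 1) ^ (2 * (k / 2)))‖ *
    ‖L τ (m + 1) (fun k => if k % 2 = 0 then 0 else 1)‖ ≤ 1 :=
    mul_le_one₀ h1 (norm_nonneg _) h2
  calc _ ≤ ‖om (m + 1) - 1‖ * 1 :=
        mul_le_mul_of_nonneg_left (h3.trans h4) (norm_nonneg _)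
    _ ≤ _ := by rw [mul_one]; exact om_sub m

theorem uu_tr (hτ : Fct τ) (m j : ℕ) (hj : 1 ≤ j) (hjm : j < 2 ^ m) : τ (uu' τ m ^ j) = 0 := by
  unfold uu'
  rw [L_pow hτ, L_tr hτ]
  have h1 : om m ^ j ≠ 1 := (om_prim m).pow_ne_one_of_pos_of_lt (by omega) hjm
  have h2 : ∀ k, (om m ^ k) ^ j = (om m ^ j) ^ k := fun k => by rw [← pow_mul, ← pow_mul, mul_comm]
  simp only [h2]
  rw [geom_sum_eq h1, ← pow_mul, mul_comm j, pow_mul, (om_prim m).pow_eq_one]
  simp

end HAAR

open HAAR in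
theorem p_HAAR : S_HAAR := by
  intro A _ τ hτ
  have hc : CauchySeq (uu' τ) :=
    cauchySeq_of_le_geometric (1 / 2) Real.pi (by norm_num) (uu_dist hτ)
  obtain ⟨s, hs⟩ := cauchySeq_tendsto_of_complete hc
  have hss : Tendsto (fun m => star (uu' τ m)) atTop (𝓝 (star s)) :=
    (continuous_star.tendsto s).comp hs
  have h1 : star s * s = 1 := by
    have h := hss.mul hs
    simp only [(uu_iso hτ _).1] at h
    exact tendsto_nhds_unique h tendsto_const_nhds |>.symm ▸ rfl
  have h2 : s * star s = 1 := by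
    have h := hs.mul hss
    simp only [(uu_iso hτ _).2] at h
    exact tendsto_nhds_unique h tendsto_const_nhds |>.symm ▸ rfl
  have hcont : ∀ (x : ℕ → A) (y : A), Tendsto x atTop (𝓝 y) →
      Tendsto (fun m => τ (x m)) atTop (𝓝 (τ y)) := by
    intro x y hxy
    rw [tendsto_iff_norm_sub_tendsto_zero] at hxy ⊢
    refine squeeze_zero (fun _ => norm_nonneg _) (fun m => ?_) hxy
    rw [← map_sub]
    exact ((tau_bounds hτ.tw).1 _).trans ((tau_bounds hτ.tw).2 _)
  have h3 : ∀ j : ℕ, 1 ≤ j → τ (s ^ j) = 0 := by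
    intro j hj
    have h4 := hcont _ _ (hs.pow j)
    have h5 : Tendsto (fun m => τ (uu' τ m ^ j)) atTop (𝓝 0) := by
      refine tendsto_const_nhds.congr' ?_
      filter_upwards [eventually_ge_atTop j] with m hm
      exact (uu_tr hτ m j hj (lt_of_le_of_lt hm Nat.lt_two_pow_self)).symm
    exact tendsto_nhds_unique h4 h5
  refine ⟨s, Unitary.mem_iff.2 ⟨h1, h2⟩, fun j hj => ⟨h3 j hj, ?_⟩⟩
  rw [← star_pow, hτ.tw.conj, h3 j hj, star_zero]

end Pool.Agent.H878R6.SC
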