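import Pool.Agent.H878R6.SC.Stubs
import Pool.Agent.H518R4.UG.TWOU

set_option autoImplicit false

open scoped ComplexOrder Topology
open Filter

noncomputable section

namespace Pool.Agent.H878R6.SC

open Pool.Agent.H467F Pool.Agent.H518R4.UG

theorem p_UGAP : S_UGAP := by
  intro B _ τ hτ k c hNG
  unfold NG at hNG
  push Not at hNG
  obtain ⟨x, hx, hgap⟩ := hNG
  have h1 : ∀ i, ∃ u₁ u₂ : unitary B, ∀ y : B,
      n2 τ (cm (x i) y) ≤ n2 τ (cm (u₁ : B) y) + n2 τ (cm (u₂ : B) y) := by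
    intro i
    obtain ⟨u₁, u₂, -, -, h⟩ := p_TWOU B τ hτ 1 (x i) ⟨star_one _, one_mul _⟩
      (by rw [one_mul, mul_one]) (hx i)
    exact ⟨u₁, u₂, fun y => (h y (one_mul _) (mul_one _)).1⟩
  choose u₁ u₂ hu using h1
  refine ⟨fun i => if (finProdFinEquiv.symm i).1 = 0 then u₁ (finProdFinEquiv.symm i).2
    else u₂ (finProdFinEquiv.symm i).2, fun y hy => ?_⟩
  have h2 := hgap y hy
  have h3 : ∑ i : Fin (2 * k), n2 τ (cm (((if (finProdFinEquiv.symm i).1 = 0 then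
      u₁ (finProdFinEquiv.symm i).2 else u₂ (finProdFinEquiv.symm i).2 : unitary B)) : B) y) ^ 2 =
      ∑ i, n2 τ (cm (u₁ i : B) y) ^ 2 + ∑ i, n2 τ (cm (u₂ i : B) y) ^ 2 := by
    have h4 := Equiv.sum_comp (finProdFinEquiv (m := 2) (n := k)).symm
      (fun p : Fin 2 × Fin k => n2 τ (cm (((if p.1 = 0 then u₁ p.2 else u₂ p.2 : unitary B)) : B) y) ^ 2)
    rw [h4, Fintype.sum_prod_type, Fin.sum_univ_two]
    simp
  rw [h3]
  have h5 : ∀ i, n2 τ (cm (x i) y) ^ 2 ≤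
      2 * (n2 τ (cm (u₁ i : B) y) ^ 2 + n2 τ (cm (u₂ i : B) y) ^ 2) := by
    intro i
    have h6 := hu i y
    have h7 : 0 ≤ n2 τ (cm (x i) y) := Real.sqrt_nonneg _
    nlinarith [sq_nonneg (n2 τ (cm (u₁ i : B) y) - n2 τ (cm (u₂ i : B) y))]
  have h8 : ∑ i, n2 τ (cm (x i) y) ^ 2 ≤
      2 * (∑ i, n2 τ (cm (u₁ i : B) y) ^ 2 + ∑ i, n2 τ (cm (u₂ i : B) y) ^ 2) := by
    rw [← Finset.sum_add_distrib, Finset.mul_sum]
    exact Finset.sum_le_sum fun i _ => h5 i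
  linarith

end Pool.Agent.H878R6.SC
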