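import Pool.Agent.H878R6.SC.Stubs
import Pool.Agent.Helper467.FP.P_tw_elt

/-!
Task ULT of project SC: a spectral gap of two elements excludes nontrivial elements of the
ultrapower which commute with both.
-/

set_option autoImplicit false

open scoped ComplexOrder Topology InnerProductSpace BoundedContinuousFunction
open Filter

noncomputable section

namespace Pool.Agent.H878R6.SC

open Pool.Agent.H467F Pool.Agent.H518R4.UG

namespace ULT

variable {A : Type} [CStarAlgebra A] {τ : A →ₗ[ℂ] ℂ}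

theorem tend_iff (h : TW τ) (U : Ultrafilter ℕ) (z : ℕ → A) :
    Tendsto (fun n => τ (star (z n) * z n)) U (𝓝 0) ↔ Tendsto (fun n => n2 τ (z n)) U (𝓝 0) := by
  constructor
  · intro h1
    have h2 : Tendsto (fun n => (τ (star (z n) * z n)).re) U (𝓝 (0 : ℂ).re) :=
      (Complex.continuous_re.tendsto 0).comp h1
    have h3 := (Real.continuous_sqrt.tendsto _).comp h2
    rw [Complex.zero_re, Real.sqrt_zero] at h3
    exact h3
  · intro h1
    have h2 : Tendsto (fun n => ((n2 τ (z n) ^ 2 : ℝ) : ℂ)) U (𝓝 (((0 : ℝ) ^ 2 : ℝ) : ℂ)) :=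
      (Complex.continuous_ofReal.tendsto _).comp (h1.pow 2)
    have h3 : (fun n => τ (star (z n) * z n)) = fun n => ((n2 τ (z n) ^ 2 : ℝ) : ℂ) := by
      funext n
      exact h.n2_sq' (z n)
    rw [h3]
    simpa using h2

theorem n2_one (h : TW τ) : n2 τ (1 : A) = 1 := by
  unfold n2
  rw [star_one, one_mul, h.one]
  simp

theorem n2_cm (u x : A) : n2 τ (cm u x) = n2 τ (x * u - u * x) := by
  unfold cm
  rw [n2_sub_comm]

theorem key (h : TW τ) {C : ℝ} {u v : A} (hg : Gap2 τ C u v) (U : Ultrafilter ℕ) (x : ℕ → A)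
    (l : ℂ) (hl : Tendsto (fun n => τ (x n)) U (𝓝 l))
    (hu : Tendsto (fun n => n2 τ (x n * u - u * x n)) U (𝓝 0))
    (hv : Tendsto (fun n => n2 τ (x n * v - v * x n)) U (𝓝 0)) :
    Tendsto (fun n => n2 τ (x n - l • (1 : A))) U (𝓝 0) := by
  have h1 : Tendsto (fun n => C * (n2 τ (x n * u - u * x n) + n2 τ (x n * v - v * x n)) +
      ‖τ (x n) - l‖) U (𝓝 (C * (0 + 0) + 0)) := by
    refine ((hu.add hv).const_mul C).add ?_
    have h2 := (hl.sub_const l).norm
    rw [sub_self, norm_zero] at h2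
    exact h2
  rw [add_zero, add_zero, mul_zero] at h1
  refine squeeze_zero (fun n => n2_nonneg _ _) (fun n => ?_) h1
  have h3 := h.n2_tri (x n) (τ (x n) • (1 : A)) (l • (1 : A))
  have h4 := hg (x n)
  rw [n2_cm, n2_cm] at h4
  have h5 : n2 τ (τ (x n) • (1 : A) - l • (1 : A)) = ‖τ (x n) - l‖ := by
    rw [← sub_smul, n2_smul, n2_one h, mul_one]
  rw [h5] at h3
  linarith

end ULT

theorem p_ULT : S_ULT := by
  intro H _ _ _ N t hN C u v hgap U Q _ _ _ _ π σ hπ q hu hv
  have tw : TW t := tw_elt N t hN.normal hN.trace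
  obtain ⟨x, rfl⟩ := hπ.surj q
  have hcomm : ∀ w : Elt N, π x * π (BoundedContinuousFunction.const ℕ w) =
      π (BoundedContinuousFunction.const ℕ w) * π x →
      Tendsto (fun n => n2 t (x n * w - w * x n)) U (𝓝 0) := by
    intro w hw
    have h1 : π (x * BoundedContinuousFunction.const ℕ w -
        BoundedContinuousFunction.const ℕ w * x) = 0 := by
      rw [map_sub, map_mul, map_mul, hw, sub_self]
    have h2 := (hπ.ker _).1 h1
    exact (ULT.tend_iff tw U (fun n => x n * w - w * x n)).1 h2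
  have h3 := ULT.key tw hgap U (fun n => x n) (σ (π x)) (hπ.trace x) (hcomm u hu) (hcomm v hv)
  refine ⟨σ (π x), ?_⟩
  have h4 := (ULT.tend_iff tw U (fun n => x n - σ (π x) • (1 : Elt N))).2 h3
  have h5 : π (x - σ (π x) • (1 : ℕ →ᵇ Elt N)) = 0 := (hπ.ker _).2 h4
  rw [map_sub, map_smul, map_one, sub_eq_zero] at h5
  exact h5

end Pool.Agent.H878R6.SC
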