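import Pool.Agent.H878R6.SC.Stubs

/-! UV: the two Haar unitaries. -/

set_option autoImplicit false

open scoped ComplexOrder Topology InnerProductSpace BoundedContinuousFunction
open Filter

noncomputable section

namespace Pool.Agent.H878R6.SC

open Pool.Agent.H467F Pool.Agent.H518R4.UG

namespace UV

variable {A B : Type} [CStarAlgebra A] [CStarAlgebra B] {τ : A →ₗ[ℂ] ℂ} {τ₁ : B →ₗ[ℂ] ℂ}
  {n : ℕ} [NeZero n] {v : ZMod n → A} {ι : B →⋆ₐ[ℂ] A} {bl : A → ZMod n → ZMod n → B}

theorem ext (hb : IsBl τ τ₁ v ι bl) {x y : A} (h : ∀ i j, bl x i j = bl y i j) : x = y := by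
  rw [hb.rep x, hb.rep y]
  exact Finset.sum_congr rfl fun i _ => Finset.sum_congr rfl fun j _ => by rw [h]

theorem bl_one (hb : IsBl τ τ₁ v ι bl) (i j : ZMod n) :
    bl 1 i j = if i = j then 1 else 0 := by
  have := hb.iot 1 i j
  rwa [map_one] at this

theorem bl_uu (hb : IsBl τ τ₁ v ι bl) (s : B) (k l : ZMod n) :
    bl (uu v ι s) k l = if k = l + 1 then s else 0 := by
  have h : uu v ι s = ∑ i, ∑ j, ι (if i = j + 1 then s else 0) * (v i * star (v j)) := by
    unfold uu
    rw [Finset.sum_comm]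
    refine Finset.sum_congr rfl fun j _ => ?_
    rw [Finset.sum_eq_single (j + 1)]
    · rw [if_pos rfl]
    · intro i _ hi
      rw [if_neg hi, map_zero, zero_mul]
    · intro h; exact absurd (Finset.mem_univ _) h
  rw [h, hb.bl_rep]

theorem bl_ww (hb : IsBl τ τ₁ v ι bl) (w : ZMod n → B) (k l : ZMod n) :
    bl (ww v ι w) k l = if k = l then w k else 0 := by
  have h : ww v ι w = ∑ i, ∑ j, ι (if i = j then w i else 0) * (v i * star (v j)) := by
    unfold ww
    refine Finset.sum_congr rfl fun i _ => ?_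
    rw [Finset.sum_eq_single i]
    · rw [if_pos rfl]
    · intro j _ hj
      rw [if_neg (Ne.symm hj), map_zero, zero_mul]
    · intro h; exact absurd (Finset.mem_univ _) h
  rw [h, hb.bl_rep]

theorem bl_pow (hb : IsBl τ τ₁ v ι bl) (s : B) (m : ℕ) (k l : ZMod n) :
    bl (uu v ι s ^ m) k l = if k = l + m then s ^ m else 0 := by
  induction m generalizing k l with
  | zero => rw [pow_zero, bl_one hb, pow_zero, Nat.cast_zero, add_zero]
  | succ m ih =>
    rw [pow_succ, hb.mul]
    rw [Finset.sum_eq_single (l + 1)]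
    · rw [ih, bl_uu hb, if_pos rfl, ite_mul, zero_mul, pow_succ]
      congr 1
      push_cast
      rw [add_assoc, add_comm (1 : ZMod n)]
    · intro r _ hr
      rw [bl_uu hb, if_neg hr, mul_zero]
    · intro h; exact absurd (Finset.mem_univ _) h

theorem uu_unitary (hb : IsBl τ τ₁ v ι bl) (s : unitary B) :
    uu v ι (s : B) ∈ unitary A := by
  rw [Unitary.mem_iff]
  have hs := Unitary.mem_iff.1 s.2
  constructor
  · refine ext hb fun i j => ?_
    rw [hb.mul, bl_one hb, Finset.sum_eq_single (j + 1)]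
    · rw [hb.str, bl_uu hb, bl_uu hb, if_pos rfl]
      by_cases h : i = j
      · subst h; rw [if_pos rfl, if_pos rfl, hs.1]
      · rw [if_neg (fun h' => h (add_right_cancel h').symm), if_neg h, star_zero, zero_mul]
    · intro r _ hr
      rw [bl_uu hb _ r j, if_neg hr, mul_zero]
    · intro h; exact absurd (Finset.mem_univ _) h
  · refine ext hb fun i j => ?_
    rw [hb.mul, bl_one hb, Finset.sum_eq_single (j - 1)]
    · rw [hb.str, bl_uu hb, bl_uu hb, sub_add_cancel, if_pos rfl]
      by_cases h : i = j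
      · subst h; rw [if_pos rfl, if_pos rfl, hs.2]
      · rw [if_neg h, if_neg h, zero_mul]
    · intro r _ hr
      rw [hb.str, bl_uu hb _ j r, if_neg (fun h => hr (by rw [h, add_sub_cancel_right])),
        star_zero, mul_zero]
    · intro h; exact absurd (Finset.mem_univ _) h

theorem ww_unitary (hb : IsBl τ τ₁ v ι bl) (w : ZMod n → unitary B) :
    ww v ι (fun i => (w i : B)) ∈ unitary A := by
  rw [Unitary.mem_iff]
  constructor
  · refine ext hb fun i j => ?_
    rw [hb.mul, bl_one hb, Finset.sum_eq_single j]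
    · rw [hb.str, bl_ww hb, bl_ww hb, if_pos rfl]
      by_cases h : i = j
      · subst h; rw [if_pos rfl, if_pos rfl, (Unitary.mem_iff.1 (w i).2).1]
      · rw [if_neg (Ne.symm h), if_neg h, star_zero, zero_mul]
    · intro r _ hr
      rw [bl_ww hb _ r j, if_neg hr, mul_zero]
    · intro h; exact absurd (Finset.mem_univ _) h
  · refine ext hb fun i j => ?_
    rw [hb.mul, bl_one hb, Finset.sum_eq_single j]
    · rw [hb.str, bl_ww hb, bl_ww hb, if_pos rfl]
      by_cases h : i = j
      · subst h; rw [if_pos rfl, if_pos rfl, (Unitary.mem_iff.1 (w i).2).2]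
      · rw [if_neg h, if_neg h, zero_mul]
    · intro r _ hr
      rw [hb.str, bl_ww hb _ j r, if_neg (Ne.symm hr), star_zero, mul_zero]
    · intro h; exact absurd (Finset.mem_univ _) h

theorem haar_of (hT : TW τ) {u : A} (hu : u ∈ unitary A) (h : ∀ j : ℕ, 1 ≤ j → τ (u ^ j) = 0) :
    Haar τ u := by
  refine ⟨hu, fun j hj => ⟨h j hj, ?_⟩⟩
  rw [← star_pow, hT.conj, h j hj, star_zero]

end UV

open _root_.Pool.Agent.H878R6.SC.UV in
theorem p_UV : S_UV := by
  intro A B _ _ τ τ₁ n _ v g ι bl _ hc hb s w hs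
  have hU := uu_unitary hb s
  have hW := ww_unitary hb w
  have hpow : ∀ j : ℕ, 1 ≤ j → τ (uu v ι (s : B) ^ j) = 0 := by
    intro j hj
    rw [hb.tr, Finset.sum_eq_zero, mul_zero]
    intro i _
    rw [bl_pow hb]
    split_ifs
    · exact (hs.2 j hj).1
    · exact map_zero _
  refine ⟨haar_of hc.tw hU hpow, hW, haar_of hc.tw ?_ ?_⟩
  · exact mul_mem (mul_mem hW hU) (Unitary.star_mem hW)
  · intro j hj
    set U := uu v ι (s : B)
    set W := ww v ι (fun i => (w i : B))
    have hWW : star W * W = 1 := (Unitary.mem_iff.1 hW).1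
    have h1 : ∀ m : ℕ, (W * U * star W) ^ m * W = W * U ^ m := by
      intro m
      induction m with
      | zero => rw [pow_zero, pow_zero, one_mul, mul_one]
      | succ m ih =>
        calc (W * U * star W) ^ (m + 1) * W
            = (W * U * star W) ^ m * (W * U * star W * W) := by rw [pow_succ, mul_assoc]
          _ = (W * U * star W) ^ m * (W * U) := by rw [mul_assoc (W * U), hWW, mul_one]
          _ = ((W * U * star W) ^ m * W) * U := (mul_assoc _ _ _).symm
          _ = W * U ^ (m + 1) := by rw [ih, mul_assoc, pow_succ]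
    have h2 : (W * U * star W) ^ j = W * U ^ j * star W := by
      rw [← h1 j, mul_assoc _ W (star W), (Unitary.mem_iff.1 hW).2, mul_one]
    rw [h2, hc.tw.comm, ← mul_assoc, hWW, one_mul, hpow j hj]

end Pool.Agent.H878R6.SC
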