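import Pool.Agent.H878R6.SC.Stubs

/-!
Sequential commutation: the commutators in terms of the matrices (UW).
-/

set_option autoImplicit false

open scoped ComplexOrder Topology InnerProductSpace BoundedContinuousFunction
open Filter

noncomputable section

namespace Pool.Agent.H878R6.SC

open Pool.Agent.H467F Pool.Agent.H518R4.UG

namespace UW

theorem n2_mul_unitary {B : Type} [CStarAlgebra B] {τ : B →ₗ[ℂ] ℂ} (h : TW τ) (x s : B)
    (hs : s * star s = 1) : n2 τ (x * s) = n2 τ x := by
  unfold n2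
  congr 2
  rw [star_mul]
  have e1 : star s * star x * (x * s) = star s * ((star x * x) * s) := by noncomm_ring
  rw [e1, h.comm, mul_assoc, hs, mul_one]

theorem n2_unitary_mul {B : Type} [CStarAlgebra B] {τ : B →ₗ[ℂ] ℂ} (x s : B)
    (hs : star s * s = 1) : n2 τ (s * x) = n2 τ x := by
  unfold n2
  congr 2
  rw [star_mul]
  have e1 : star x * star s * (s * x) = star x * ((star s * s) * x) := by noncomm_ring
  rw [e1, hs, one_mul]

variable {A B : Type} [CStarAlgebra A] [CStarAlgebra B] {τ : A →ₗ[ℂ] ℂ} {τ₁ : B →ₗ[ℂ] ℂ}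
  {n : ℕ} [NeZero n] {v : ZMod n → A} {ι : B →⋆ₐ[ℂ] A} {bl : A → ZMod n → ZMod n → B}

theorem bl_uu (hB : IsBl τ τ₁ v ι bl) (s : B) (k l : ZMod n) :
    bl (uu v ι s) k l = if k = l + 1 then s else 0 := by
  have h1 : uu v ι s = ∑ i, ∑ j, ι ((fun k l : ZMod n => if k = l + 1 then s else 0) i j) *
      (v i * star (v j)) := by
    rw [Finset.sum_comm]
    unfold uu
    refine Finset.sum_congr rfl (fun l _ => ?_)
    rw [Finset.sum_eq_single (l + 1)]
    · simp
    · intro b _ hb
      simp [hb]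
    · intro hb
      exact absurd (Finset.mem_univ _) hb
  rw [h1, hB.bl_rep]

theorem bl_ww (hB : IsBl τ τ₁ v ι bl) (w : ZMod n → B) (k l : ZMod n) :
    bl (ww v ι w) k l = if k = l then w k else 0 := by
  have h1 : ww v ι w = ∑ i, ∑ j, ι ((fun k l : ZMod n => if k = l then w k else 0) i j) *
      (v i * star (v j)) := by
    unfold ww
    refine Finset.sum_congr rfl (fun k _ => ?_)
    rw [Finset.sum_eq_single k]
    · simp
    · intro b _ hb
      have : k ≠ b := fun h => hb h.symm
      simp [this]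
    · intro hb
      exact absurd (Finset.mem_univ _) hb
  rw [h1, hB.bl_rep]

theorem bl_ext (hB : IsBl τ τ₁ v ι bl) {x y : A} (h : ∀ i j, bl x i j = bl y i j) : x = y := by
  rw [hB.rep x, hB.rep y]
  simp only [h]

theorem bl_one (hB : IsBl τ τ₁ v ι bl) (i j : ZMod n) :
    bl (1 : A) i j = if i = j then 1 else 0 := by
  have := hB.iot 1 i j
  rwa [map_one] at this

theorem bl_le (hB : IsBl τ τ₁ v ι bl) (z : A) (k l : ZMod n) :
    Pool.Agent.H467F.n2 τ₁ (bl z k l) ≤ Real.sqrt n * Pool.Agent.H467F.n2 τ z := by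
  have hn : (0 : ℝ) < n := by exact_mod_cast Nat.pos_of_ne_zero (NeZero.ne n)
  have h1 := hB.n2 z
  have h2 : Pool.Agent.H467F.n2 τ₁ (bl z k l) ^ 2 ≤
      ∑ i, ∑ j, Pool.Agent.H467F.n2 τ₁ (bl z i j) ^ 2 := by
    have h3 : Pool.Agent.H467F.n2 τ₁ (bl z k l) ^ 2 ≤
        ∑ j, Pool.Agent.H467F.n2 τ₁ (bl z k j) ^ 2 :=
      Finset.single_le_sum (f := fun j => Pool.Agent.H467F.n2 τ₁ (bl z k j) ^ 2)
        (fun j _ => sq_nonneg _) (Finset.mem_univ l)
    have h4 : ∑ j, Pool.Agent.H467F.n2 τ₁ (bl z k j) ^ 2 ≤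
        ∑ i, ∑ j, Pool.Agent.H467F.n2 τ₁ (bl z i j) ^ 2 :=
      Finset.single_le_sum (f := fun i => ∑ j, Pool.Agent.H467F.n2 τ₁ (bl z i j) ^ 2)
        (fun i _ => Finset.sum_nonneg (fun j _ => sq_nonneg _)) (Finset.mem_univ k)
    exact h3.trans h4
  have h5 : Pool.Agent.H467F.n2 τ₁ (bl z k l) ^ 2 ≤
      (Real.sqrt n * Pool.Agent.H467F.n2 τ z) ^ 2 := by
    rw [mul_pow, Real.sq_sqrt hn.le, h1, ← mul_assoc, mul_inv_cancel₀ hn.ne', one_mul]
    exact h2
  exact (pow_le_pow_iff_left₀ (n2_nonneg _ _)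
    (mul_nonneg (Real.sqrt_nonneg _) (n2_nonneg _ _)) two_ne_zero).1 h5

theorem bl_cm (hB : IsBl τ τ₁ v ι bl) (s : B) (y : A) (i j : ZMod n) :
    bl (cm (uu v ι s) y) (i + 1) j = s * bl y i j - bl y (i + 1) (j + 1) * s := by
  unfold cm
  rw [hB.sub, hB.mul, hB.mul]
  congr 1
  · rw [Finset.sum_eq_single i]
    · rw [bl_uu hB, if_pos rfl]
    · intro b _ hb
      rw [bl_uu hB, if_neg (fun h => hb (add_right_cancel h).symm), zero_mul]
    · intro hb
      exact absurd (Finset.mem_univ _) hb
  · rw [Finset.sum_eq_single (j + 1)]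
    · rw [bl_uu hB, if_pos rfl]
    · intro b _ hb
      rw [bl_uu hB, if_neg hb, mul_zero]
    · intro hb
      exact absurd (Finset.mem_univ _) hb

theorem first (hC : IsCom τ τ₁ v ι) (hB : IsBl τ τ₁ v ι bl) (s : unitary B) (y : A)
    (i j : ZMod n) :
    n2 τ₁ (bl y (i + 1) (j + 1) - (s : B) * bl y i j * star (s : B)) ≤
      Real.sqrt n * n2 τ (cm (uu v ι (s : B)) y) := by
  have hs : (s : B) * star (s : B) = 1 := Unitary.mul_star_self_of_mem s.2
  have hs' : star (s : B) * (s : B) = 1 := Unitary.star_mul_self_of_mem s.2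
  have h1 := bl_le hB (cm (uu v ι (s : B)) y) (i + 1) j
  have h2 : bl y (i + 1) (j + 1) - (s : B) * bl y i j * star (s : B) =
      -(bl (cm (uu v ι (s : B)) y) (i + 1) j * star (s : B)) := by
    rw [bl_cm hB, sub_mul, mul_assoc (bl y (i + 1) (j + 1)), hs, mul_one]
    abel
  rw [h2, n2_neg, n2_mul_unitary hC.tw1 _ _ (by rw [star_star]; exact hs')]
  exact h1

end UW

open UW in
theorem p_UW : S_UW := by
  intro A B _ _ τ τ₁ n _ v g ι bl hMU hC hB s w y
  refine ⟨fun i j => first hC hB s y i j, fun i j => ?_⟩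
  set W : A := ww v ι (fun i => (w i : B)) with hW
  set u : A := uu v ι (s : B) with hu
  have hw1 : ∀ i, (w i : B) * star (w i : B) = 1 := fun i => Unitary.mul_star_self_of_mem (w i).2
  have hw2 : ∀ i, star (w i : B) * (w i : B) = 1 := fun i => Unitary.star_mul_self_of_mem (w i).2
  have blW : ∀ k l, bl W k l = if k = l then (w k : B) else 0 := fun k l => bl_ww hB _ k l
  have blWs : ∀ k l, bl (star W) k l = if k = l then star (w k : B) else 0 := by
    intro k l
    rw [hB.str, blW]
    by_cases h : k = l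
    · subst h
      simp
    · have h' : l ≠ k := fun hh => h hh.symm
      simp [h, h']
  have mulW : ∀ (x : A) (k l : ZMod n), bl (x * W) k l = bl x k l * (w l : B) := by
    intro x k l
    rw [hB.mul, Finset.sum_eq_single l]
    · rw [blW, if_pos rfl]
    · intro b _ hb
      rw [blW, if_neg hb, mul_zero]
    · intro hb
      exact absurd (Finset.mem_univ _) hb
  have Wsmul : ∀ (x : A) (k l : ZMod n), bl (star W * x) k l = star (w k : B) * bl x k l := by
    intro x k l
    rw [hB.mul, Finset.sum_eq_single k]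
    · rw [blWs, if_pos rfl]
    · intro b _ hb
      rw [blWs, if_neg (fun h => hb h.symm), zero_mul]
    · intro hb
      exact absurd (Finset.mem_univ _) hb
  have mulWs : ∀ (x : A) (k l : ZMod n), bl (x * star W) k l = bl x k l * star (w l : B) := by
    intro x k l
    rw [hB.mul, Finset.sum_eq_single l]
    · rw [blWs, if_pos rfl]
    · intro b _ hb
      rw [blWs, if_neg hb, mul_zero]
    · intro hb
      exact absurd (Finset.mem_univ _) hb
  have W1 : star W * W = 1 := by
    refine bl_ext hB (fun k l => ?_)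
    rw [Wsmul, blW, bl_one hB]
    by_cases h : k = l
    · rw [if_pos h, if_pos h, hw2]
    · rw [if_neg h, if_neg h, mul_zero]
  have W2 : W * star W = 1 := by
    refine bl_ext hB (fun k l => ?_)
    rw [mulWs, blW, bl_one hB]
    by_cases h : k = l
    · rw [if_pos h, if_pos h, h, hw1]
    · rw [if_neg h, if_neg h, zero_mul]
  -- apply the first part to `z`
  set z : A := star W * y * W with hz
  have blz : ∀ k l, bl z k l = star (w k : B) * bl y k l * (w l : B) := by
    intro k l
    rw [hz, mulW, Wsmul]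
  have h1 := first hC hB s z i j
  rw [blz, blz] at h1
  refine h1.trans (le_of_eq ?_)
  congr 1
  have e1 : cm u z = star W * cm (W * u * star W) y * W := by
    unfold cm
    rw [hz]
    have a1 : star W * (W * u * star W * y - y * (W * u * star W)) * W =
        (star W * W) * u * star W * y * W - star W * y * W * u * (star W * W) := by
      noncomm_ring
    rw [a1, W1]
    noncomm_ring
  rw [e1, n2_mul_unitary hC.tw _ _ W2, n2_unitary_mul _ _ (by rw [star_star]; exact W2)]

end Pool.Agent.H878R6.SC
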